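import Mathlib

/-!
# Certificates for the killer and their primitive recursive check
-/

namespace Pool.Agent.RKr

/-- an entry `((τ, j), σ)` of the graph of a reduction: `σ` is the `j`-th label of `τ` -/
abbrev Ent := (List Bool × ℕ) × List Bool

/-- a position: history of entries, list of killed strings -/
abbrev Posn := List Ent × List (List Bool)

/-- a certificate: a level and a list of positions -/
abbrev Cert := ℕ × List Posn

/-- the strings of length `s` -/
def strs (s : ℕ) : List (List Bool) :=
  Nat.rec [[]] (fun _ l => l.flatMap fun w => [false :: w, true :: w]) s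

theorem strs_succ (s : ℕ) :
    strs (s + 1) = (strs s).flatMap fun w => [false :: w, true :: w] := rfl

theorem mem_strs {s : ℕ} {σ : List Bool} : σ ∈ strs s ↔ σ.length = s := by
  induction s generalizing σ with
  | zero =>
    change σ ∈ [[]] ↔ _
    simp
  | succ s ih =>
    rw [strs_succ, List.mem_flatMap]
    constructor
    · rintro ⟨w, hw, h⟩
      rw [ih] at hw
      rcases List.mem_cons.1 h with rfl | h
      · simp [hw]
      · rw [List.mem_singleton] at h
        simp [h, hw]
    · intro h
      cases σ with
      | nil => simp at h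
      | cons b w =>
        refine ⟨w, ih.2 (by simpa using h), ?_⟩
        cases b <;> simp

theorem primrec_strs : Primrec strs := by
  unfold strs
  refine Primrec.nat_rec₁ [[]] ?_
  refine Primrec.list_flatMap Primrec.snd ?_
  refine Primrec.list_cons.comp ?_ (Primrec.list_cons.comp ?_ (Primrec.const []))
  · exact Primrec.list_cons.comp (Primrec.const false) Primrec.snd
  · exact Primrec.list_cons.comp (Primrec.const true) Primrec.snd

/-- the entries of level at most `N` with index at most `k` -/
def ents (k N : ℕ) : List Ent :=
  (List.range (N + 1)).flatMap fun l => (strs l).flatMap fun τ => (strs l).flatMap fun σ =>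
    (List.range (k + 1)).map fun j => ((τ, j), σ)

theorem mem_ents {k N : ℕ} {e : Ent} :
    e ∈ ents k N ↔ e.1.1.length ≤ N ∧ e.2.length = e.1.1.length ∧ e.1.2 ≤ k := by
  obtain ⟨⟨τ, j⟩, σ⟩ := e
  unfold ents
  simp only [List.mem_flatMap, List.mem_range, List.mem_map, mem_strs, Prod.mk.injEq]
  constructor
  · rintro ⟨l, h1, τ', h2, σ', h3, j', h4, ⟨rfl, rfl⟩, rfl⟩
    exact ⟨by omega, by omega, by omega⟩
  · rintro ⟨h1, h2, h3⟩
    exact ⟨τ.length, by omega, τ, rfl, σ, h2, j, by omega, ⟨rfl, rfl⟩, rfl⟩

theorem primrec_ents (k : ℕ) : Primrec (ents k) := by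
  unfold ents
  refine Primrec.list_flatMap (Primrec.list_range.comp Primrec.succ) ?_
  refine Primrec.list_flatMap (primrec_strs.comp Primrec.snd) ?_
  refine Primrec.list_flatMap (primrec_strs.comp (Primrec.snd.comp Primrec.fst)) ?_
  refine Primrec.list_map (Primrec.const _) ?_
  exact Primrec.pair (Primrec.pair (Primrec.snd.comp (Primrec.fst.comp Primrec.fst))
    Primrec.snd) (Primrec.snd.comp Primrec.fst)

end Pool.Agent.RKr
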