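import Pool.Agent.RKr.Game

/-!
# Counting lemmas
-/

namespace Pool.Agent.RKr

open Classical in
theorem card_ext {n : ℕ} (q : Str) (h : q.length ≤ n) :
    ((lev n).filter fun x => x.take q.length = q).card = 2 ^ (n - q.length) := by
  have h1 : ((lev n).filter fun x => x.take q.length = q) =
      (lev (n - q.length)).image fun w => q ++ w := by
    ext x
    rw [Finset.mem_filter, mem_lev, Finset.mem_image]
    constructor
    · rintro ⟨h1, h2⟩
      refine ⟨x.drop q.length, ?_, ?_⟩
      · rw [mem_lev, List.length_drop, h1]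
      · conv_lhs => rw [← h2]
        rw [h2]
        nth_rewrite 1 [← h2]
        exact List.take_append_drop _ _
    · rintro ⟨w, hw, rfl⟩
      rw [mem_lev] at hw
      refine ⟨by rw [List.length_append, hw]; omega, by simp⟩
  rw [h1, Finset.card_image_of_injective, card_lev]
  intro x y hxy
  exact List.append_cancel_left hxy

open Classical in
theorem card_ext_set {n ℓ : ℕ} (hn : ℓ ≤ n) (S : Finset Str) (hS : ∀ q ∈ S, q.length = ℓ) :
    ((lev n).filter fun x => x.take ℓ ∈ S).card = S.card * 2 ^ (n - ℓ) := by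
  have h1 : ((lev n).filter fun x => x.take ℓ ∈ S) =
      S.biUnion fun q => (lev n).filter fun x => x.take q.length = q := by
    ext x
    rw [Finset.mem_filter, Finset.mem_biUnion]
    constructor
    · rintro ⟨h1, h2⟩
      exact ⟨_, h2, Finset.mem_filter.2 ⟨h1, by rw [hS _ h2]⟩⟩
    · rintro ⟨q, hq, h2⟩
      rw [Finset.mem_filter, hS q hq] at h2
      exact ⟨h2.1, by rw [h2.2]; exact hq⟩
  rw [h1, Finset.card_biUnion]
  · rw [Finset.sum_congr rfl fun q hq => by rw [card_ext q (by rw [hS q hq]; exact hn), hS q hq]]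
    rw [Finset.sum_const, smul_eq_mul]
  · intro q hq q' hq' hne
    rw [Function.onFun, Finset.disjoint_left]
    intro x hx hx'
    rw [Finset.mem_filter] at hx hx'
    apply hne
    rw [← hx.2, ← hx'.2, hS q hq, hS q' hq']

open Classical in
theorem card_labs_le {C : ℕ} {T : Set (Str × Str)} (hL : Legal C T) (q : Str) (s : Finset Str) :
    (s.filter fun γ => H T γ q).card ≤ C := by
  have h1 : ((s.filter fun γ => H T γ q : Finset Str) : Set Str) ⊆ labs T q := by
    intro x hx
    exact (Finset.mem_filter.1 (Finset.mem_coe.1 hx)).2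
  have h2 := (Set.encard_le_encard h1).trans (labs_encard hL q)
  rw [Set.encard_coe_eq_coe_finsetCard] at h2
  exact_mod_cast h2

open Classical in
/-- some extension of `δ` of length `ℓ` has few hosts -/
theorem exists_few_hosts {C : ℕ} {T : Set (Str × Str)} (hL : Legal C T) (δ : Str) (ℓ : ℕ)
    (hℓ : δ.length ≤ ℓ) : ∃ γ : Str, γ.length = ℓ ∧ γ.take δ.length = δ ∧
      ((lev ℓ).filter fun q => H T γ q).card ≤ C * 2 ^ δ.length := by
  by_contra hcon
  push Not at hcon
  set E := (lev ℓ).filter fun x => x.take δ.length = δ with hE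
  have h1 : ∑ γ ∈ E, ((lev ℓ).filter fun q => H T γ q).card =
      ∑ q ∈ lev ℓ, (E.filter fun γ => H T γ q).card :=
    Finset.sum_card_bipartiteAbove_eq_sum_card_bipartiteBelow (fun γ q => H T γ q)
  have h2 : ∑ q ∈ lev ℓ, (E.filter fun γ => H T γ q).card ≤ ∑ q ∈ lev ℓ, C :=
    Finset.sum_le_sum fun q _ => card_labs_le hL q E
  rw [Finset.sum_const, card_lev, smul_eq_mul] at h2
  have h3 : ∑ γ ∈ E, (C * 2 ^ δ.length + 1) ≤ ∑ γ ∈ E, ((lev ℓ).filter fun q => H T γ q).card := by
    refine Finset.sum_le_sum fun γ hγ => ?_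
    rw [hE, Finset.mem_filter, mem_lev] at hγ
    exact hcon γ hγ.1 hγ.2
  rw [Finset.sum_const, card_ext δ hℓ, smul_eq_mul] at h3
  have h4 : 2 ^ (ℓ - δ.length) * (C * 2 ^ δ.length + 1) ≤ 2 ^ ℓ * C := by
    rw [h1] at h3
    exact h3.trans h2
  have h5 : 2 ^ (ℓ - δ.length) * 2 ^ δ.length = 2 ^ ℓ := by
    rw [← pow_add]
    congr 1
    omega
  have h6 : 0 < 2 ^ (ℓ - δ.length) := by positivity
  nlinarith

end Pool.Agent.RKr
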