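import Pool.Agent.RKr.Main

/-!
# Safe positions of the killer
-/

namespace Pool.Agent.RKr

/-- Safe positions: some label of length `n` has no live host, and whatever labels are added, the
killer can restore this within the budget `2 ^ (n - r)`. -/
def Safe (C n r : ℕ) (α : Str) (T : Set (Str × Str)) (K : Finset Str) : Prop :=
  (∀ x ∈ K, x.length = n) ∧ ¬ Ok n α T K ∧ ∃ c, K.card + c ≤ 2 ^ (n - r) ∧
    ∀ T', T ⊆ T' → Legal C T' → Ok n α T' K → Force C n α (fun _ _ => False) c T' K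

theorem safe_of_force {C n r : ℕ} {α : Str} {c : ℕ} {T : Set (Str × Str)} {K : Finset Str}
    (h : Force C n α (fun _ _ => False) c T K) (hL : Legal C T) (hK : ∀ x ∈ K, x.length = n)
    (hc : K.card + c ≤ 2 ^ (n - r)) : ∃ K', K ⊆ K' ∧ Safe C n r α T K' := by
  induction h with
  | done h => exact h.elim
  | @kill c c' T K D hD hcc h ih =>
    have h1 : ∀ x ∈ K ∪ D, x.length = n := by
      intro x hx
      rcases Finset.mem_union.1 hx with hx | hx
      · exact hK x hx
      · exact hD x hx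
    have h2 : (K ∪ D).card + c' ≤ 2 ^ (n - r) := by
      have := Finset.card_union_le K D
      omega
    by_cases hO : Ok n α T (K ∪ D)
    · obtain ⟨K', h3, h4⟩ := ih T subset_rfl hL hO hL h1 h2
      exact ⟨K', Finset.subset_union_left.trans h3, h4⟩
    · exact ⟨K ∪ D, Finset.subset_union_left, h1, hO, c', h2, h⟩

theorem Safe.step {C n r : ℕ} {α : Str} {T T' : Set (Str × Str)} {K : Finset Str}
    (h : Safe C n r α T K) (hT : T ⊆ T') (hL : Legal C T') :
    ∃ K', K ⊆ K' ∧ Safe C n r α T' K' := by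
  obtain ⟨h1, h2, c, h3, h4⟩ := h
  by_cases hO : Ok n α T' K
  · exact safe_of_force (h4 T' hT hL hO) hL h1 h3
  · exact ⟨K, Finset.Subset.refl _, h1, hO, c, h3, fun T'' h5 h6 h7 => h4 T'' (hT.trans h5) h6 h7⟩

theorem killer (C r : ℕ) (α : Str) : ∃ n, α.length ≤ n ∧ r ≤ n ∧ Safe C n r α ∅ ∅ := by
  obtain ⟨n, h1, h2, h3⟩ := force_false C r α
  refine ⟨n, h1, h2, by simp, ?_, 2 ^ (n - r), by simp, fun T' _ h4 h5 => h3 T' ∅ h4 h5⟩
  intro hO
  obtain ⟨τ, -, -, h6⟩ := hO (α ++ List.replicate (n - α.length) false) (by simp; omega)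
    (by rw [List.take_left'] ; rfl)
  exact h6.2 0 (Nat.zero_le _)

theorem Safe.unhosted {C n r : ℕ} {α : Str} {T : Set (Str × Str)} {K : Finset Str}
    (h : Safe C n r α T K) : ∃ σ : Str, σ.length = n ∧ σ.take α.length = α ∧
      ∀ τ : Str, τ.length = n → H T σ τ → τ ∈ K := by
  by_contra hcon
  push Not at hcon
  refine h.2.1 fun σ h1 h2 => ?_
  obtain ⟨τ, h3, h4, h5⟩ := hcon σ h1 h2
  exact ⟨τ, h3, h5, h4⟩

end Pool.Agent.RKr
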