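import Pool.Agent.RKr.Valid
import Pool.Agent.RKr.Safe

/-!
# Valid certificates exist
-/

namespace Pool.Agent.RKr

theorem finite_nodup {α : Type*} (s : List α) :
    {l : List α | l.Nodup ∧ ∀ x ∈ l, x ∈ s}.Finite := by
  classical
  have h1 : ({l : List {x // x ∈ s} | l.length ≤ Fintype.card {x // x ∈ s}}).Finite :=
    List.finite_length_le _ _
  refine (h1.image (List.map Subtype.val)).subset ?_
  rintro l ⟨h2, h3⟩
  lift l to List {x // x ∈ s} using h3
  exact ⟨l, (List.Nodup.of_map _ h2).length_le_card, rfl⟩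

/-- the set of labels given by a history -/
def lab (k : ℕ) (h : List Ent) : Set (Str × Str) := {p | ∃ j ≤ k, ((p.2, j), p.1) ∈ h}

theorem lab_legal (k : ℕ) (h : List Ent) (hn : (h.map fun e => e.1).Nodup) :
    Legal (k + 1) (lab k h) := by
  classical
  intro τ
  have hch : ∀ σ : Str, ∃ j, (σ, τ) ∈ lab k h → j ≤ k ∧ ((τ, j), σ) ∈ h := by
    intro σ
    by_cases hs : (σ, τ) ∈ lab k h
    · obtain ⟨j, h1, h2⟩ := hs
      exact ⟨j, fun _ => ⟨h1, h2⟩⟩
    · exact ⟨0, fun h => absurd h hs⟩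
  choose J hJ using hch
  have h1 : Set.MapsTo J {σ | (σ, τ) ∈ lab k h} (Finset.range (k + 1) : Finset ℕ) := by
    intro σ hσ
    have := (hJ σ hσ).1
    simp only [Finset.coe_range, Set.mem_Iio]
    omega
  have h2 : Set.InjOn J {σ | (σ, τ) ∈ lab k h} := by
    intro σ hσ σ' hσ' he
    have h3 := (hJ σ hσ).2
    have h4 := (hJ σ' hσ').2
    rw [← he] at h4
    have h5 := List.inj_on_of_nodup_map hn h3 h4 rfl
    exact congrArg Prod.snd h5
  have h3 := Set.encard_le_encard_of_injOn h1 h2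
  rw [Set.encard_coe_eq_coe_finsetCard, Finset.card_range] at h3
  exact h3

theorem HB_iff {k N : ℕ} {h : List Ent} {σ τ : Str} (h1 : σ.length = N) (h2 : τ.length = N) :
    HB k N h σ τ ↔ H (lab k h) σ τ := by
  unfold HB H lab
  constructor
  · intro h3
    refine ⟨h1.trans h2.symm, fun i hi => ?_⟩
    obtain ⟨j, h4, h5⟩ := h3 i (by omega)
    exact ⟨j, by omega, h5⟩
  · rintro ⟨-, h3⟩ i hi
    obtain ⟨j, h4, h5⟩ := h3 i (by omega)
    exact ⟨j, by omega, h5⟩

theorem exists_valid (k r : ℕ) (α : Str) : ∃ c : Cert, Valid k r α c := by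
  classical
  obtain ⟨N, hN1, hN2, hsafe⟩ := killer (k + 1) r α
  set P : Set Posn := {p | (p.1.map fun e => e.1).Nodup ∧ (∀ e ∈ p.1, e ∈ ents k N) ∧ p.2.Nodup ∧
    Safe (k + 1) N r α (lab k p.1) p.2.toFinset} with hP
  have hfin : P.Finite := by
    refine ((finite_nodup (ents k N)).prod (finite_nodup (strs N))).subset ?_
    rintro p ⟨h1, h2, h3, h4⟩
    refine ⟨⟨List.Nodup.of_map _ h1, h2⟩, h3, fun x hx => ?_⟩
    rw [mem_strs]
    exact h4.1 x (List.mem_toFinset.2 hx)
  have hmem : ∀ p : Posn, p ∈ hfin.toFinset.toList ↔ p ∈ P := by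
    intro p
    rw [Finset.mem_toList, Set.Finite.mem_toFinset]
  refine ⟨(N, hfin.toFinset.toList), ?_, ?_, ?_, ?_⟩
  · refine ⟨([], []), (hmem _).2 ⟨by simp, by simp, by simp, ?_⟩, rfl⟩
    have h1 : lab k ([] : List Ent) = ∅ := by
      ext p
      simp [lab]
    simpa [h1] using hsafe
  · intro p hp e he
    rw [hmem] at hp
    obtain ⟨h1, h2, h3, h4⟩ := hp
    by_cases hk : ∃ e' ∈ p.1, e'.1 = e.1
    · exact Or.inl hk
    · right
      have h5 : ((e :: p.1).map fun e => e.1).Nodup := by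
        rw [List.map_cons, List.nodup_cons]
        refine ⟨?_, h1⟩
        rw [List.mem_map]
        exact hk
      have h6 : lab k p.1 ⊆ lab k (e :: p.1) := by
        rintro z ⟨j, h7, h8⟩
        exact ⟨j, h7, List.mem_cons_of_mem _ h8⟩
      obtain ⟨K', h7, h8⟩ := h4.step h6 (lab_legal k _ h5)
      refine ⟨(e :: p.1, K'.toList), (hmem _).2 ⟨h5, ?_, Finset.nodup_toList _, ?_⟩, rfl, ?_⟩
      · intro e' he'
        rcases List.mem_cons.1 he' with rfl | he'
        · exact he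
        · exact h2 e' he'
      · simpa using h8
      · intro x hx
        rw [Finset.mem_toList]
        exact h7 (List.mem_toFinset.2 hx)
  · intro p hp
    rw [hmem] at hp
    obtain ⟨h1, h2, h3, h4⟩ := hp
    refine ⟨fun x hx => h4.1 x (List.mem_toFinset.2 hx), ?_⟩
    obtain ⟨c, h5, -⟩ := h4.2.2
    rw [List.toFinset_card_of_nodup h3] at h5
    have h6 : p.2.length ≤ 2 ^ (N - r) := by omega
    rw [length_strs, length_strs]
    refine ⟨h6.trans (Nat.pow_le_pow_right (by norm_num) (by omega)), ?_⟩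
    calc p.2.length * 2 ^ r ≤ 2 ^ (N - r) * 2 ^ r := Nat.mul_le_mul_right _ h6
      _ = 2 ^ N := by
          rw [← pow_add]
          congr 1
          omega
  · intro p hp
    rw [hmem] at hp
    obtain ⟨h1, h2, h3, h4⟩ := hp
    obtain ⟨σ, h5, h6, h7⟩ := h4.unhosted
    refine ⟨σ, mem_strs.2 h5, h6, fun τ hτ => ?_⟩
    rw [mem_strs] at hτ
    by_cases hH : HB k N p.1 σ τ
    · left
      exact List.mem_toFinset.1 (h7 τ hτ ((HB_iff h5 hτ).1 hH))
    · exact Or.inr hH

end Pool.Agent.RKr
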