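import Pool.Agent.RKr.Run
import Pool.Agent.RKr.Exist
import Pool.Agent.Hhelper54.AC.Test
import Pool.Agent.Hhelper75.Low4.Sig1

/-!
# The Martin-Löf test of a reduction
-/

namespace Pool.Agent.RKr

open Encodable Denumerable Nat.Partrec AC Low4

/-- the enumeration of the graph of the partial function computed by the code `c` -/
def enumG (c : Code) (s : ℕ) : Option Ent :=
  (Code.evaln s.unpair.2 c s.unpair.1).bind fun y =>
    (decode (α := List Bool × ℕ) s.unpair.1).bind fun a =>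
      (decode (α := List Bool) y).map fun b => (a, b)

theorem primrec_enumG (c : Code) : Primrec (enumG c) := by
  unfold enumG
  refine Primrec.option_bind ?_ ?_
  · exact Code.primrec_evaln.comp (Primrec.pair (Primrec.pair
      (Primrec.snd.comp Primrec.unpair) (Primrec.const c)) (Primrec.fst.comp Primrec.unpair))
  · refine Primrec.option_bind (Primrec.decode.comp
      (Primrec.fst.comp (Primrec.unpair.comp Primrec.fst))) ?_
    refine Primrec.option_map (Primrec.decode.comp (Primrec.snd.comp Primrec.fst)) ?_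
    exact Primrec.pair (Primrec.snd.comp Primrec.fst) Primrec.snd

theorem enumG_spec {f : List Bool × ℕ →. List Bool} {c : Code}
    (hc : Code.eval c = fun n => Part.bind (decode (α := List Bool × ℕ) n) fun a =>
      (f a).map encode) (e : Ent) : (∃ s, enumG c s = some e) ↔ e.2 ∈ f e.1 := by
  have key : ∀ (a : List Bool × ℕ) (y : ℕ), y ∈ Code.eval c (encode a) ↔
      ∃ b ∈ f a, encode b = y := by
    intro a y
    rw [hc]
    simp only [encodek, Part.coe_some, Part.bind_some, Part.mem_map_iff]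
  constructor
  · rintro ⟨s, hs⟩
    unfold enumG at hs
    rw [Option.bind_eq_some_iff] at hs
    obtain ⟨y, h1, h2⟩ := hs
    rw [Option.bind_eq_some_iff] at h2
    obtain ⟨a, h3, h4⟩ := h2
    rw [Option.map_eq_some_iff] at h4
    obtain ⟨b, h5, rfl⟩ := h4
    have h6 : y ∈ Code.eval c s.unpair.1 := Code.evaln_complete.2 ⟨_, h1⟩
    rw [hc] at h6
    simp only at h6
    rw [h3] at h6
    simp only [Part.coe_some, Part.bind_some, Part.mem_map_iff] at h6
    obtain ⟨b', h7, h8⟩ := h6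
    rw [← h8, encodek] at h5
    have h9 : b' = b := by simpa using h5
    rw [← h9]
    exact h7
  · intro h
    have h1 : encode e.2 ∈ Code.eval c (encode e.1) := (key e.1 _).2 ⟨e.2, h, rfl⟩
    obtain ⟨t, ht⟩ := Code.evaln_complete.1 h1
    refine ⟨Nat.pair (encode e.1) t, ?_⟩
    unfold enumG
    rw [Nat.unpair_pair]
    simp only
    rw [Option.mem_def] at ht
    rw [ht]
    simp only [Option.bind_some, encodek, Option.map_some]

/-- the certificate with number `i` -/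
def dec (i : ℕ) : Cert := (decode (α := Cert) i).getD (0, [])

theorem primrec_dec : Primrec dec :=
  Primrec.option_getD.comp Primrec.decode (Primrec.const _)

/-- the string with number `c` -/
def al (c : ℕ) : List Bool := (decode (α := List Bool) c).getD []

theorem primrec_al : Primrec al :=
  Primrec.option_getD.comp Primrec.decode (Primrec.const _)

/-- `i` is the least number of a valid certificate -/
def Least (k r : ℕ) (α : List Bool) (i : ℕ) : Prop :=
  Valid k r α (dec i) ∧ ∀ i' < i, ¬ Valid k r α (dec i')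

theorem exists_least (k r : ℕ) (α : List Bool) : ∃ i, Least k r α i := by
  classical
  have h : ∃ i, Valid k r α (dec i) := by
    obtain ⟨c, hc⟩ := exists_valid k r α
    refine ⟨encode c, ?_⟩
    unfold dec
    rw [encodek]
    exact hc
  exact ⟨Nat.find h, Nat.find_spec h, fun i' hi' => Nat.find_min h hi'⟩

theorem Least.unique {k r : ℕ} {α : List Bool} {i j : ℕ} (hi : Least k r α i)
    (hj : Least k r α j) : i = j := by
  rcases lt_trichotomy i j with h | h | h
  · exact absurd hi.1 (hj.2 i h)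
  · exact h
  · exact absurd hj.1 (hi.2 j h)

theorem primrec_Least (k : ℕ) : PrimrecPred fun z : (ℕ × List Bool) × ℕ => Least k z.1.1 z.1.2 z.2 := by
  unfold Least
  have h1 : PrimrecPred fun z : (ℕ × List Bool) × ℕ => Valid k z.1.1 z.1.2 (dec z.2) :=
    PrimrecPred.comp (primrec_Valid k) (f := fun z : (ℕ × List Bool) × ℕ => (z.1, dec z.2))
      (Primrec.pair Primrec.fst (primrec_dec.comp Primrec.snd))
  refine PrimrecPred.and h1 ?_
  have h2 : PrimrecRel fun (i : ℕ) (z : ℕ × List Bool) => ¬ Valid k z.1 z.2 (dec i) :=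
    PrimrecPred.not (PrimrecPred.comp h1 (f := fun w : ℕ × (ℕ × List Bool) => (w.2, w.1))
      (Primrec.pair Primrec.snd Primrec.fst))
  exact PrimrecPred.comp (p := fun w : ℕ × (ℕ × List Bool) =>
    ∀ i < w.1, ¬ Valid k w.2.1 w.2.2 (dec i)) (all_lt h2)
    (f := fun z : (ℕ × List Bool) × ℕ => (z.2, z.1)) (Primrec.pair Primrec.snd Primrec.fst)

/-- the block `(n, c)` of the test -/
def Blk (k : ℕ) (cd : Code) (n c : ℕ) (x : List Bool) : Prop :=
  ∃ i s : ℕ, Least k (2 * n + 1) (al c) i ∧ x ∈ (run k (enumG cd) (dec i) s).2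

/-- the test -/
def W (k : ℕ) (cd : Code) (m : ℕ) (x : List Bool) : Prop := ∃ n ≥ m, ∃ c ≤ n, Blk k cd n c x

theorem re_W (k : ℕ) (cd : Code) : REPred fun p : ℕ × List Bool => W k cd p.1 p.2 := by
  classical
  have h1 : PrimrecPred fun z : (ℕ × List Bool) × ((ℕ × ℕ) × (ℕ × ℕ)) =>
      (z.1.1 ≤ z.2.1.1 ∧ z.2.1.2 ≤ z.2.1.1) ∧ Least k (2 * z.2.1.1 + 1) (al z.2.1.2) z.2.2.1 ∧
        z.1.2 ∈ (run k (enumG cd) (dec z.2.2.1) z.2.2.2).2 := by
    have kn : Primrec fun z : (ℕ × List Bool) × ((ℕ × ℕ) × (ℕ × ℕ)) => z.2.1.1 :=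
      Primrec.fst.comp (Primrec.fst.comp Primrec.snd)
    have kc : Primrec fun z : (ℕ × List Bool) × ((ℕ × ℕ) × (ℕ × ℕ)) => z.2.1.2 :=
      Primrec.snd.comp (Primrec.fst.comp Primrec.snd)
    have ki : Primrec fun z : (ℕ × List Bool) × ((ℕ × ℕ) × (ℕ × ℕ)) => z.2.2.1 :=
      Primrec.fst.comp (Primrec.snd.comp Primrec.snd)
    have ks : Primrec fun z : (ℕ × List Bool) × ((ℕ × ℕ) × (ℕ × ℕ)) => z.2.2.2 :=
      Primrec.snd.comp (Primrec.snd.comp Primrec.snd)
    have km : Primrec fun z : (ℕ × List Bool) × ((ℕ × ℕ) × (ℕ × ℕ)) => z.1.1 :=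
      Primrec.fst.comp Primrec.fst
    have kx : Primrec fun z : (ℕ × List Bool) × ((ℕ × ℕ) × (ℕ × ℕ)) => z.1.2 :=
      Primrec.snd.comp Primrec.fst
    refine PrimrecPred.and (PrimrecPred.and (PrimrecRel.comp Primrec.nat_le km kn)
      (PrimrecRel.comp Primrec.nat_le kc kn)) (PrimrecPred.and ?_ ?_)
    · exact PrimrecPred.comp (primrec_Least k)
        (f := fun z : (ℕ × List Bool) × ((ℕ × ℕ) × (ℕ × ℕ)) =>
          ((2 * z.2.1.1 + 1, al z.2.1.2), z.2.2.1))
        (Primrec.pair (Primrec.pair (Primrec.succ.comp (Primrec.nat_mul.comp (Primrec.const 2) kn))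
          (primrec_al.comp kc)) ki)
    · exact mem_comp kx (Primrec.snd.comp ((primrec_run k (primrec_enumG cd)).comp
        (primrec_dec.comp ki) ks))
  have h2 : Sig1 fun z : (ℕ × List Bool) × ((ℕ × ℕ) × (ℕ × ℕ)) =>
      (z.1.1 ≤ z.2.1.1 ∧ z.2.1.2 ≤ z.2.1.1) ∧ Least k (2 * z.2.1.1 + 1) (al z.2.1.2) z.2.2.1 ∧
        z.1.2 ∈ (run k (enumG cd) (dec z.2.2.1) z.2.2.2).2 := by
    refine (Sig1.of_computable (PrimrecPred.decide h1).to_comp).of_eq fun z => ?_
    exact decide_eq_true_iff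
  refine ((Sig1.ex (α := ℕ × List Bool) (β := (ℕ × ℕ) × (ℕ × ℕ)) (p := fun x y =>
      (x.1 ≤ y.1.1 ∧ y.1.2 ≤ y.1.1) ∧ Least k (2 * y.1.1 + 1) (al y.1.2) y.2.1 ∧
        x.2 ∈ (run k (enumG cd) (dec y.2.1) y.2.2).2) h2).of_eq fun z => ?_).re
  unfold W Blk
  constructor
  · rintro ⟨⟨⟨n, c⟩, ⟨i, s⟩⟩, ⟨h3, h4⟩, h5, h6⟩
    exact ⟨n, h3, c, h4, i, s, h5, h6⟩
  · rintro ⟨n, h3, c, h4, i, s, h5, h6⟩
    exact ⟨⟨⟨n, c⟩, ⟨i, s⟩⟩, ⟨h3, h4⟩, h5, h6⟩

section spec

variable {f : List Bool × ℕ →. List Bool} {cd : Code}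
  (hc : Code.eval cd = fun n => Part.bind (decode (α := List Bool × ℕ) n) fun a =>
      (f a).map encode)

include hc

theorem enum_fun (s t : ℕ) (e e' : Ent) (h1 : enumG cd s = some e) (h2 : enumG cd t = some e')
    (h3 : e.1 = e'.1) : e = e' := by
  have k1 := (enumG_spec hc e).1 ⟨s, h1⟩
  have k2 := (enumG_spec hc e').1 ⟨t, h2⟩
  rw [← h3] at k2
  exact Prod.ext h3 (Part.mem_unique k1 k2)

theorem blk_small (k n c : ℕ) : ∃ (s : ℕ) (l : List (List Bool)), (∀ σ, Blk k cd n c σ → σ ∈ l) ∧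
    (∀ σ ∈ l, σ.length = s) ∧ l.length * 2 ^ (2 * n + 1) ≤ 2 ^ s := by
  obtain ⟨i, hi⟩ := exists_least k (2 * n + 1) (al c)
  obtain ⟨p, hp, h1, -, -⟩ := run_limit (En := enumG cd) hi.1 (enum_fun hc)
  have h3 := hi.1.2.2.1 p hp
  rw [length_strs, length_strs] at h3
  refine ⟨(dec i).1, p.2, ?_, h3.1, h3.2.2⟩
  rintro σ ⟨i', s, h4, h5⟩
  rw [h4.unique hi] at h5
  exact h1 s σ h5

theorem isMLTest_W (k : ℕ) : IsMLTest (W k cd) :=
  ⟨re_W k cd, small_of_lists (W k cd) (Blk k cd) (fun _ _ => Iff.rfl) (blk_small hc k)⟩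

theorem W_dense (k m : ℕ) (α : List Bool) : ∃ σ : List Bool, σ.take α.length = α ∧
    ∀ τ : List Bool, τ.length = σ.length →
      (∀ i ≤ τ.length, ∃ j ≤ k, σ.take i ∈ f (τ.take i, j)) → W k cd m τ := by
  set c := encode α with hcα
  have hal : al c = α := by
    unfold al
    rw [hcα, encodek]
    rfl
  set n := max m c with hn
  obtain ⟨i, hi⟩ := exists_least k (2 * n + 1) (al c)
  obtain ⟨p, hp, h1, ⟨s, hs⟩, h2⟩ := run_limit (En := enumG cd) hi.1 (enum_fun hc)
  obtain ⟨σ, h3, h4, h5⟩ := hi.1.2.2.2 p hp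
  rw [hal] at h4
  rw [mem_strs] at h3
  refine ⟨σ, h4, fun τ hτ hH => ⟨n, le_max_left _ _, c, le_max_right _ _, i, s, hi, ?_⟩⟩
  rw [hs]
  rcases h5 τ (mem_strs.2 (hτ.trans h3)) with h6 | h6
  · exact h6
  · exfalso
    apply h6
    intro l hl
    obtain ⟨j, hj, h7⟩ := hH l (by omega)
    refine ⟨j, by omega, h2 _ ?_ ((enumG_spec hc _).2 h7)⟩
    rw [mem_ents]
    simp only [List.length_take]
    exact ⟨by omega, by omega, hj⟩

end spec

end Pool.Agent.RKr
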