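import Mathlib

/-!
# The list-labelling game: strings, hosts, forcing

`T` is a set of pairs `(σ, τ)` (`σ` is a label of the node `τ`), `H T σ τ` says that all initial
segments of `τ` carry the corresponding initial segments of `σ` (`τ` hosts `σ`). `K` is the set of
killed strings of the top level `n`.
-/

namespace Pool.Agent.RKr

/-- binary strings -/
abbrev Str := List Bool

/-- the strings of length `n` -/
def lev (n : ℕ) : Finset Str :=
  (Finset.univ : Finset (List.Vector Bool n)).image List.Vector.toList

theorem mem_lev {n : ℕ} {x : Str} : x ∈ lev n ↔ x.length = n := by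
  unfold lev
  constructor
  · intro h
    obtain ⟨v, -, rfl⟩ := Finset.mem_image.1 h
    exact v.toList_length
  · intro h
    exact Finset.mem_image.2 ⟨⟨x, h⟩, Finset.mem_univ _, rfl⟩

theorem card_lev (n : ℕ) : (lev n).card = 2 ^ n := by
  unfold lev
  rw [Finset.card_image_of_injective _ List.Vector.toList_injective, Finset.card_univ, card_vector]
  simp

/-- `τ` hosts `σ` -/
def H (T : Set (Str × Str)) (σ τ : Str) : Prop :=
  σ.length = τ.length ∧ ∀ i ≤ τ.length, (σ.take i, τ.take i) ∈ T

theorem H.take {T : Set (Str × Str)} {σ τ : Str} (h : H T σ τ) (i : ℕ) :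
    H T (σ.take i) (τ.take i) := by
  refine ⟨by simp [h.1], fun j hj => ?_⟩
  rw [List.take_take, List.take_take]
  refine h.2 _ ?_
  rw [List.length_take] at hj
  omega

theorem H.mono {T T' : Set (Str × Str)} (hT : T ⊆ T') {σ τ : Str} (h : H T σ τ) : H T' σ τ :=
  ⟨h.1, fun i hi => hT (h.2 i hi)⟩

/-- every node has at most `C` labels -/
def Legal (C : ℕ) (T : Set (Str × Str)) : Prop := ∀ τ, {σ | (σ, τ) ∈ T}.encard ≤ C

/-- the labels which `q` hosts -/
def labs (T : Set (Str × Str)) (q : Str) : Set Str := {σ | H T σ q}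

theorem labs_mono {T T' : Set (Str × Str)} (hT : T ⊆ T') (q : Str) : labs T q ⊆ labs T' q :=
  fun _ h => H.mono hT h

theorem labs_encard {C : ℕ} {T : Set (Str × Str)} (hT : Legal C T) (q : Str) :
    (labs T q).encard ≤ C := by
  refine (Set.encard_le_encard ?_).trans (hT q)
  intro σ hσ
  have h := hσ.2 q.length le_rfl
  have h1 : σ.take q.length = σ := by rw [← hσ.1, List.take_length]
  rwa [h1, List.take_length] at h

/-- `q` is not killed -/
def live (n : ℕ) (K : Finset Str) (q : Str) : Prop :=
  ∃ x : Str, x.length = n ∧ x ∉ K ∧ x.take q.length = q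

theorem live.anti {n : ℕ} {K K' : Finset Str} (hK : K ⊆ K') {q : Str} (h : live n K' q) :
    live n K q := by
  obtain ⟨x, h1, h2, h3⟩ := h
  exact ⟨x, h1, fun h => h2 (hK h), h3⟩

/-- every label of length `n` extending `α` has a host which is not killed -/
def Ok (n : ℕ) (α : Str) (T : Set (Str × Str)) (K : Finset Str) : Prop :=
  ∀ σ : Str, σ.length = n → σ.take α.length = α → ∃ τ : Str, τ.length = n ∧ τ ∉ K ∧ H T σ τ

theorem Ok.live {n : ℕ} {α : Str} {T : Set (Str × Str)} {K : Finset Str} (h : Ok n α T K)
    {ζ : Str} (h1 : ζ.length ≤ n) (h2 : ζ.take α.length = α) :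
    ∃ q, q.length = ζ.length ∧ live n K q ∧ H T ζ q := by
  have ha : α.length ≤ ζ.length := by
    rw [← h2, List.length_take]
    omega
  obtain ⟨τ, h3, h4, h5⟩ := h (ζ ++ List.replicate (n - ζ.length) false) (by simp; omega) (by
    rw [List.take_append_of_le_length ha, h2])
  refine ⟨τ.take ζ.length, by rw [List.length_take]; omega, ⟨τ, h3, h4, ?_⟩, ?_⟩
  · rw [List.length_take]
    congr 1
    omega
  · have := h5.take ζ.length
    rwa [List.take_left'] at this
    rfl

/-- the killer can force `P` with at most `c` further killed strings of length `n` -/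
inductive Force (C n : ℕ) (α : Str) (P : Set (Str × Str) → Finset Str → Prop) :
    ℕ → Set (Str × Str) → Finset Str → Prop
  | done {c : ℕ} {T : Set (Str × Str)} {K : Finset Str} (h : P T K) : Force C n α P c T K
  | kill {c c' : ℕ} {T : Set (Str × Str)} {K : Finset Str} (D : Finset Str)
      (hD : ∀ x ∈ D, x.length = n) (hc : D.card + c' ≤ c)
      (h : ∀ T', T ⊆ T' → Legal C T' → Ok n α T' (K ∪ D) → Force C n α P c' T' (K ∪ D)) :
      Force C n α P c T K

variable {C n : ℕ} {α : Str}

theorem Force.mono {P : Set (Str × Str) → Finset Str → Prop} {c d : ℕ} {T : Set (Str × Str)}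
    {K : Finset Str} (h : Force C n α P c T K) (hcd : c ≤ d) : Force C n α P d T K := by
  cases h with
  | done h => exact Force.done h
  | kill D hD hc h => exact Force.kill D hD (hc.trans hcd) h

theorem Force.bind {P Q : Set (Str × Str) → Finset Str → Prop} {c d : ℕ} {T : Set (Str × Str)}
    {K : Finset Str} (h : Force C n α P c T K) (hL : Legal C T) (hO : Ok n α T K)
    (hPQ : ∀ T' K', T ⊆ T' → K ⊆ K' → Legal C T' → Ok n α T' K' → P T' K' →
      Force C n α Q d T' K') : Force C n α Q (c + d) T K := by
  induction h with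
  | done h => exact (hPQ _ _ subset_rfl subset_rfl hL hO h).mono (by omega)
  | @kill c c' T K D hD hc h ih =>
    refine Force.kill D hD (c' := c' + d) (by omega) fun T' h1 h2 h3 => ?_
    refine ih T' h1 h2 h3 h2 h3 fun T'' K'' h4 h5 h6 h7 h8 => ?_
    exact hPQ T'' K'' (h1.trans h4) (Finset.subset_union_left.trans h5) h6 h7 h8

/-- repeat until `Q` holds -/
theorem Force.iter {Q : Set (Str × Str) → Finset Str → Prop} (φ : Set (Str × Str) → ℕ) (B c : ℕ)
    (hφ : ∀ T, φ T ≤ B) (T0 : Set (Str × Str)) (K0 : Finset Str)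
    (h : ∀ T K, T0 ⊆ T → K0 ⊆ K → Legal C T → Ok n α T K → ¬ Q T K →
      Force C n α (fun T' K' => Q T' K' ∨ φ T < φ T') c T K)
    (T : Set (Str × Str)) (K : Finset Str) (h1 : T0 ⊆ T) (h2 : K0 ⊆ K) (h3 : Legal C T)
    (h4 : Ok n α T K) : Force C n α Q ((B + 1) * c) T K := by
  have key : ∀ m : ℕ, ∀ T K, T0 ⊆ T → K0 ⊆ K → Legal C T → Ok n α T K → B - φ T ≤ m →
      Force C n α Q ((m + 1) * c) T K := by
    intro m
    induction m with
    | zero =>
      intro T K k1 k2 k3 k4 k5
      by_cases hQ : Q T K
      · exact Force.done hQ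
      · have := (h T K k1 k2 k3 k4 hQ).bind (Q := Q) (d := 0) k3 k4 fun T' K' _ _ _ _ k6 => by
          rcases k6 with k6 | k6
          · exact Force.done k6
          · have := hφ T'
            omega
        exact this.mono (by omega)
    | succ m ih =>
      intro T K k1 k2 k3 k4 k5
      by_cases hQ : Q T K
      · exact Force.done hQ
      · have := (h T K k1 k2 k3 k4 hQ).bind (Q := Q) (d := (m + 1) * c) k3 k4
          fun T' K' l1 l2 l3 l4 k6 => by
          rcases k6 with k6 | k6
          · exact Force.done k6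
          · exact ih T' K' (k1.trans l1) (k2.trans l2) l3 l4 (by omega)
        exact this.mono (by ring_nf; omega)
  exact key B T K h1 h2 h3 h4 (by omega)

/-- force all of a finite set of monotone goals -/
theorem Force.all {S : Set (Str × Str) → Finset Str → Prop} {ι : Type*} [DecidableEq ι]
    (G : ι → Set (Str × Str) → Prop) (hG : ∀ i T T', T ⊆ T' → G i T → G i T') (c : ℕ)
    (T0 : Set (Str × Str)) (K0 : Finset Str) (s : Finset ι)
    (h : ∀ i ∈ s, ∀ T K, T0 ⊆ T → K0 ⊆ K → Legal C T → Ok n α T K →
      Force C n α (fun T' K' => S T' K' ∨ G i T') c T K)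
    (T : Set (Str × Str)) (K : Finset Str) (h1 : T0 ⊆ T) (h2 : K0 ⊆ K) (h3 : Legal C T)
    (h4 : Ok n α T K) :
    Force C n α (fun T' K' => S T' K' ∨ ∀ i ∈ s, G i T') (s.card * c) T K := by
  induction s using Finset.induction_on generalizing T K with
  | empty => exact Force.done (Or.inr (by simp))
  | @insert i s hi ih =>
    have k1 := ih (fun j hj => h j (Finset.mem_insert_of_mem hj)) T K h1 h2 h3 h4
    have k2 := k1.bind (Q := fun T' K' => S T' K' ∨ ∀ j ∈ insert i s, G j T') (d := c) h3 h4
      fun T' K' l1 l2 l3 l4 l5 => by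
        rcases l5 with l5 | l5
        · exact Force.done (Or.inl l5)
        · have := (h i (Finset.mem_insert_self _ _) T' K' (h1.trans l1) (h2.trans l2) l3 l4).bind
            (Q := fun T' K' => S T' K' ∨ ∀ j ∈ insert i s, G j T') (d := 0) l3 l4
            fun T'' K'' m1 m2 m3 m4 m5 => by
              rcases m5 with m5 | m5
              · exact Force.done (Or.inl m5)
              · refine Force.done (Or.inr fun j hj => ?_)
                rcases Finset.mem_insert.1 hj with rfl | hj
                · exact m5
                · exact hG j _ _ m1 (l5 j hj)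
          exact this
    rw [Finset.card_insert_of_notMem hi]
    exact k2.mono (by ring_nf; omega)

end Pool.Agent.RKr
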