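import Pool.Agent.RKr.Round

/-!
# The step of the induction and the winning killer
-/

namespace Pool.Agent.RKr

section

variable {C n b : ℕ} {α γ : Str} {T0 : Set (Str × Str)} {L : ℕ → ℕ}

open Classical in
/-- one round -/
theorem round_force {a k n' μ p e : ℕ} {δ : Str} {K0 K1 : Finset Str} {T1 : Set (Str × Str)}
    (hE : ∀ i, i < 2 * p → ∀ (T : Set (Str × Str)) (K : Finset Str), Legal C T → Ok n α T K →
      ∀ δ : Str, δ.length = L i → δ.take α.length = α →
      (∀ q : Str, L i ≤ q.length → q.length ≤ L (i + 1) → live n K q → H T δ (q.take (L i)) →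
        ((k + 1 : ℕ) : ℕ∞) ≤ (labs T q).encard) →
      Force C n α (fun T' K' => ∃ p : Str, p.length = L i ∧ live n K' p ∧ H T' δ p ∧ ¬ H T δ p)
        (2 ^ (n - (μ + 2 * L i + 1))) T K)
    (hδ : δ.length = a) (hδα : δ.take α.length = α)
    (hab : a ≤ b) (hγb : γ.length = b) (hγ : γ.take a = δ)
    (hus : ∀ q : Str, a ≤ q.length → q.length ≤ n' → live n K0 q → H T0 δ (q.take a) →
      (k : ℕ∞) ≤ (labs T0 q).encard)
    (hL : Monotone L) (hb : ∀ i, b ≤ L i) (hLn : L (2 * p) ≤ n') (hn : n' ≤ n)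
    (hμ : ∀ i < 2 * p, μ + 2 * L i + 1 ≤ n) (hp : 2 ^ μ ≤ p)
    (hT01 : T0 ⊆ T1) (hK0 : K0 ⊆ K1)
    (hD0 : ∀ x : Str, x.length = n → H T0 γ (x.take b) → x ∈ K1)
    (hinv : e * 2 ^ (n - b) ≤ C * (GG n b γ T0 L (2 * p) T1).card) :
    Force C n α (fun T' K' => Suc n a δ T0 T' K' ∨
      (e + 1) * 2 ^ (n - b) ≤ C * (GG n b γ T0 L p T').card) (2 ^ (n - μ) + 2 ^ (n - μ)) T1 K1 := by
  have hp0 : 0 < p := lt_of_lt_of_le (by positivity) hp
  obtain ⟨i, hi1, hi2, hi3⟩ := pigeon (fun i => (GG n b γ T0 L i T1).card) n μ p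
    (by have := hμ 0 (by omega); omega) hp
    (fun i h1 h2 => Finset.card_le_card (GG_anti hL hb (Nat.le_succ i)
      ((hL (by omega : i + 1 ≤ 2 * p)).trans (hLn.trans hn)) T1))
    (by
      refine (Finset.card_filter_le _ _).trans (card_lev _).le)
  have hLi : L (i + 1) ≤ n' := (hL (by omega : i + 1 ≤ 2 * p)).trans hLn
  have hLi0 : L i ≤ L (i + 1) := hL (Nat.le_succ i)
  refine Force.kill (GG n b γ T0 L i T1 \ GG n b γ T0 L (i + 1) T1)
    (fun x hx => (mem_GG.1 (Finset.mem_sdiff.1 hx).1).1) (c' := 2 ^ (n - μ)) ?_ ?_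
  · have := Finset.card_sdiff_of_subset (GG_anti (n := n) (γ := γ) (T0 := T0) hL hb
      (Nat.le_succ i) (hLi.trans hn) T1)
    rw [Nat.succ_eq_add_one] at this
    rw [this]
    omega
  intro T2 hT2 hL2 hO2
  set K2 := K1 ∪ (GG n b γ T0 L i T1 \ GG n b γ T0 L (i + 1) T1) with hK2
  have hK12 : K1 ⊆ K2 := Finset.subset_union_left
  have hall := Force.all (C := C) (n := n) (α := α) (S := Suc n a δ T0)
    (G := fun ζ T' => Good b γ T0 L i T1 ζ T') (fun ζ T T' hT h => Good.mono hT h)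
    ((2 ^ L i + 1) * 2 ^ (n - (μ + 2 * L i + 1))) T1 K2
    ((lev (L i)).filter fun ζ => ζ.take b = γ) (fun ζ hζ T K h1 h2 h3 h4 => by
      rw [Finset.mem_filter, mem_lev] at hζ
      exact unit_force (hE i hi2) hab hγ hus hL hb hLi hT01 (hK0.trans hK12)
        (fun x hx h => hK12 (hD0 x hx h))
        (fun x hx h => Finset.mem_union_right _ (Finset.mem_sdiff.2 ⟨hx, h⟩)) hζ.1
        (by
          refine take_alpha (γ := ζ) hδ hδα ?_
          rw [← take_take_of_le hab, hζ.2, hγ]) T K h1 h2 h3 h4) T2 K2 hT2 subset_rfl hL2 hO2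
  have hcard : ((lev (L i)).filter fun ζ => ζ.take b = γ).card = 2 ^ (L i - b) := by
    have := card_ext (n := L i) γ (by rw [hγb]; exact hb i)
    rwa [hγb] at this
  rw [hcard] at hall
  have hle : 2 ^ (L i - b) * ((2 ^ L i + 1) * 2 ^ (n - (μ + 2 * L i + 1))) ≤ 2 ^ (n - μ) := by
    have h1 : 2 ^ (L i - b) ≤ 2 ^ L i := Nat.pow_le_pow_right (by norm_num) (by omega)
    have h2 : 2 ^ L i + 1 ≤ 2 ^ (L i + 1) := by
      rw [pow_succ]
      have : 0 < 2 ^ L i := by positivity
      omega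
    calc 2 ^ (L i - b) * ((2 ^ L i + 1) * 2 ^ (n - (μ + 2 * L i + 1)))
        ≤ 2 ^ L i * (2 ^ (L i + 1) * 2 ^ (n - (μ + 2 * L i + 1))) := by gcongr
      _ = 2 ^ (L i + (L i + 1) + (n - (μ + 2 * L i + 1))) := by rw [pow_add, pow_add, pow_add]; ring
      _ = 2 ^ (n - μ) := by
          congr 1
          have := hμ i hi2
          omega
  refine Force.mono (c := 2 ^ (L i - b) * ((2 ^ L i + 1) * 2 ^ (n - (μ + 2 * L i + 1))) + 0) ?_
    (by omega)
  refine hall.bind hL2 hO2 fun T3 K3 hT3 hK3 hL3 hO3 hP => Force.done ?_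
  rcases hP with hP | hP
  · exact Or.inl hP
  · right
    have h1 := new_count (T0 := T0) hL3 hγb (hb i) (hLi0.trans (hLi.trans hn)) hP
    have h2 : GG n b γ T0 L i T1 ⊆ GG n b γ T0 L i T3 := GG_mono (hT2.trans hT3)
    have h3 := Finset.card_sdiff_add_card_eq_card h2
    have h4 : (GG n b γ T0 L (2 * p) T1).card ≤ (GG n b γ T0 L i T1).card :=
      Finset.card_le_card (GG_anti hL hb (by omega) (hLn.trans hn) T1)
    have h5 : (GG n b γ T0 L i T3).card ≤ (GG n b γ T0 L p T3).card :=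
      Finset.card_le_card (GG_anti hL hb hi1 (hLi0.trans (hLi.trans hn)) T3)
    calc (e + 1) * 2 ^ (n - b) = e * 2 ^ (n - b) + 2 ^ (n - b) := by ring
      _ ≤ C * (GG n b γ T0 L (2 * p) T1).card +
          C * (GG n b γ T0 L i T3 \ GG n b γ T0 L i T1).card := add_le_add hinv h1
      _ ≤ C * (GG n b γ T0 L i T1).card +
          C * (GG n b γ T0 L i T3 \ GG n b γ T0 L i T1).card := by gcongr
      _ = C * (GG n b γ T0 L i T3).card := by rw [← mul_add, add_comm, h3]
      _ ≤ C * (GG n b γ T0 L p T3).card := by gcongr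

end

open Classical in
theorem E_step {C : ℕ} {α : Str} {k : ℕ} (hE : E C α (k + 1)) : E C α k := by
  choose N hN1 hN2 hN using hE
  intro a r
  set b := a + C + r + 2 with hb
  set R := C * 2 ^ b + 1 with hR
  set μ := R + r + 2 with hμ
  set L : ℕ → ℕ := fun i => Nat.rec b (fun _ x => N x (μ + 2 * x + 1)) i with hLdef
  have hL0 : L 0 = b := rfl
  have hLs : ∀ i, L (i + 1) = N (L i) (μ + 2 * L i + 1) := fun i => rfl
  have hLmono : Monotone L := monotone_nat_of_le_succ fun i => by rw [hLs]; exact hN1 _ _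
  have hLb : ∀ i, b ≤ L i := fun i => by rw [← hL0]; exact hLmono (Nat.zero_le i)
  have hLμ : ∀ i, μ + 2 * L i + 1 ≤ L (i + 1) := fun i => by rw [hLs]; exact hN2 _ _
  set J := 2 ^ (R + μ) with hJ
  have hJ1 : 1 ≤ J := Nat.one_le_two_pow
  have hLJ : μ + 2 * L 0 + 1 ≤ L J := (hLμ 0).trans (hLmono hJ1)
  refine ⟨L J, by omega, by omega, ?_⟩
  intro n' n hn' hn T0 K0 hLT hO δ hδ hδα hus
  obtain ⟨γ, hγb, hγ, hfew⟩ := exists_few_hosts hLT δ b (by omega)
  rw [hδ] at hγ hfew
  set S := (lev b).filter fun q => H T0 γ q with hS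
  set D := (lev n).filter fun x => x.take b ∈ S with hD
  have hDcard : D.card ≤ 2 ^ (n - r - 2) := by
    rw [hD, card_ext_set (by omega) S fun q hq => mem_lev.1 (Finset.mem_filter.1 hq).1]
    calc S.card * 2 ^ (n - b) ≤ C * 2 ^ a * 2 ^ (n - b) := Nat.mul_le_mul_right _ hfew
      _ ≤ 2 ^ C * 2 ^ a * 2 ^ (n - b) := by
          have : C ≤ 2 ^ C := Nat.lt_two_pow_self.le
          gcongr
      _ = 2 ^ (C + a + (n - b)) := by rw [pow_add, pow_add]
      _ ≤ 2 ^ (n - r - 2) := Nat.pow_le_pow_right (by norm_num) (by omega)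
  -- the main loop
  have loop : ∀ m ≤ R, ∀ (T1 : Set (Str × Str)) (K1 : Finset Str), T0 ⊆ T1 → K0 ⊆ K1 →
      Legal C T1 → Ok n α T1 K1 → (∀ x : Str, x.length = n → H T0 γ (x.take b) → x ∈ K1) →
      (R - m) * 2 ^ (n - b) ≤ C * (GG n b γ T0 L (2 ^ (m + μ)) T1).card →
      Force C n α (Suc n a δ T0) (m * (2 ^ (n - μ) + 2 ^ (n - μ))) T1 K1 := by
    intro m
    induction m with
    | zero =>
      intro _ T1 K1 _ _ _ _ _ hinv
      exfalso
      have h1 : (GG n b γ T0 L (2 ^ (0 + μ)) T1).card ≤ 2 ^ n :=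
        (Finset.card_filter_le _ _).trans (card_lev _).le
      have h2 : (C * 2 ^ b + 1) * 2 ^ (n - b) ≤ C * 2 ^ n := by
        refine le_trans ?_ (Nat.mul_le_mul_left C h1)
        rw [Nat.sub_zero] at hinv
        exact hinv
      have h3 : 2 ^ b * 2 ^ (n - b) = 2 ^ n := by
        rw [← pow_add]
        congr 1
        omega
      have h4 : 0 < 2 ^ (n - b) := by positivity
      nlinarith
    | succ m ih =>
      intro hm T1 K1 hT hK hL1 hO1 hD1 hinv
      have hexp : 2 ^ (m + 1 + μ) = 2 * 2 ^ (m + μ) := by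
        rw [show m + 1 + μ = (m + μ) + 1 by ring, pow_succ]
        ring
      rw [hexp] at hinv
      have hle2 : 2 * 2 ^ (m + μ) ≤ J := by
        rw [← hexp, hJ]
        exact Nat.pow_le_pow_right (by norm_num) (by omega)
      have hround := round_force (C := C) (n := n) (b := b) (α := α) (γ := γ) (T0 := T0) (L := L)
        (a := a) (k := k) (n' := n') (μ := μ) (p := 2 ^ (m + μ)) (e := R - (m + 1)) (δ := δ)
        (K0 := K0) (K1 := K1) (T1 := T1)
        (fun i hi T K h1 h2 δ' h3 h4 h5 => by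
          refine hN (L i) (μ + 2 * L i + 1) (L (i + 1)) n (by rw [hLs]) ?_ T K h1 h2 δ' h3 h4 h5
          exact (hLmono (by omega : i + 1 ≤ J)).trans (hn'.trans hn))
        hδ hδα (by omega) hγb hγ hus hLmono hLb ((hLmono hle2).trans hn') hn
        (fun i hi => (hLμ i).trans ((hLmono (by omega : i + 1 ≤ J)).trans (hn'.trans hn)))
        (Nat.pow_le_pow_right (by norm_num) (by omega)) hT hK hD1 hinv
      have := hround.bind (Q := Suc n a δ T0) (d := m * (2 ^ (n - μ) + 2 ^ (n - μ))) hL1 hO1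
        fun T2 K2 h1 h2 h3 h4 h5 => by
          rcases h5 with h5 | h5
          · exact Force.done h5
          · refine ih (by omega) T2 K2 (hT.trans h1) (hK.trans h2) h3 h4
              (fun x hx h => h2 (hD1 x hx h)) ?_
            have h6 : R - (m + 1) + 1 = R - m := by omega
            rwa [h6] at h5
      exact this.mono (by ring_nf; omega)
  refine Force.kill D (fun x hx => mem_lev.1 (Finset.mem_filter.1 hx).1)
    (c' := R * (2 ^ (n - μ) + 2 ^ (n - μ))) ?_ fun T1 hT1 hL1 hO1 => ?_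
  · have h1 : R * (2 ^ (n - μ) + 2 ^ (n - μ)) ≤ 2 ^ (n - r - 1) := by
      calc R * (2 ^ (n - μ) + 2 ^ (n - μ)) ≤ 2 ^ R * (2 ^ (n - μ) + 2 ^ (n - μ)) :=
            Nat.mul_le_mul_right _ Nat.lt_two_pow_self.le
        _ = 2 ^ (R + (n - μ) + 1) := by rw [pow_succ, pow_add]; ring
        _ = 2 ^ (n - r - 1) := by
            congr 1
            omega
    have h2 : 2 ^ (n - r - 1) = 2 ^ (n - r - 2) + 2 ^ (n - r - 2) := by
      rw [show n - r - 1 = (n - r - 2) + 1 by omega, pow_succ]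
      ring
    have h3 : 2 ^ (n - r) = 2 ^ (n - r - 1) + 2 ^ (n - r - 1) := by
      rw [show n - r = (n - r - 1) + 1 by omega, pow_succ]
      simp only [Nat.add_sub_cancel]
      ring
    omega
  · refine loop R le_rfl T1 (K0 ∪ D) hT1 Finset.subset_union_left hL1 hO1 ?_ ?_
    · intro x hx h
      refine Finset.mem_union_right _ (Finset.mem_filter.2 ⟨mem_lev.2 hx, ?_⟩)
      refine Finset.mem_filter.2 ⟨?_, h⟩
      rw [mem_lev, List.length_take]
      omega
    · simp

theorem E_zero (C : ℕ) (α : Str) : E C α 0 := by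
  have key : ∀ m ≤ C, E C α (C - m) := by
    intro m
    induction m with
    | zero => intro _; exact E_base C α
    | succ m ih =>
      intro hm
      have h1 := ih (by omega)
      rw [show C - m = C - (m + 1) + 1 by omega] at h1
      exact E_step h1
  have := key C le_rfl
  rwa [Nat.sub_self] at this

open Classical in
/-- The killer wins at little cost. -/
theorem force_false (C r : ℕ) (α : Str) : ∃ n, α.length ≤ n ∧ r ≤ n ∧
    ∀ (T : Set (Str × Str)) (K : Finset Str), Legal C T → Ok n α T K →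
      Force C n α (fun _ _ => False) (2 ^ (n - r)) T K := by
  obtain ⟨N, hN1, hN2, hN⟩ := E_zero C α α.length (r + α.length + 1)
  refine ⟨N, hN1, by omega, fun T K hL hO => ?_⟩
  have h := Force.iter (C := C) (n := N) (α := α) (Q := fun _ _ => False)
    (fun T => ((lev α.length).filter fun q => H T α q).card) (2 ^ α.length)
    (2 ^ (N - (r + α.length + 1)))
    (fun T => (Finset.card_filter_le _ _).trans (card_lev _).le) ∅ ∅ (fun T K _ _ hL hO _ => by
      have h1 := hN N N le_rfl le_rfl T K hL hO α rfl (by simp) (fun q _ _ _ _ => by simp)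
      refine h1.bind (d := 0) hL hO fun T' K' hT _ _ _ hP => Force.done (Or.inr ?_)
      obtain ⟨p, hp1, -, hp2, hp3⟩ := hP
      refine Finset.card_lt_card ((Finset.ssubset_iff_of_subset ?_).2 ⟨p, ?_, ?_⟩)
      · intro q hq
        rw [Finset.mem_filter] at *
        exact ⟨hq.1, hq.2.mono hT⟩
      · rw [Finset.mem_filter, mem_lev]
        exact ⟨hp1, hp2⟩
      · rw [Finset.mem_filter]
        exact fun h => hp3 h.2) T K (Set.empty_subset _) (Finset.empty_subset _) hL hO
  refine h.mono ?_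
  have h2 : 2 ^ α.length + 1 ≤ 2 ^ (α.length + 1) := by
    rw [pow_succ]
    have : 0 < 2 ^ α.length := by positivity
    omega
  calc (2 ^ α.length + 1) * 2 ^ (N - (r + α.length + 1))
      ≤ 2 ^ (α.length + 1) * 2 ^ (N - (r + α.length + 1)) := Nat.mul_le_mul_right _ h2
    _ = 2 ^ (N - r) := by
        rw [← pow_add]
        congr 1
        omega

end Pool.Agent.RKr
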