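import Pool.Agent.RKr.Step

/-!
# One round, and the step of the induction
-/

namespace Pool.Agent.RKr

theorem pigeon (g : ℕ → ℕ) (n μ p : ℕ) (hμ : μ ≤ n) (hp : 2 ^ μ ≤ p)
    (hanti : ∀ i, p ≤ i → i < 2 * p → g (i + 1) ≤ g i) (hg : g p ≤ 2 ^ n) :
    ∃ i, p ≤ i ∧ i < 2 * p ∧ g i - g (i + 1) ≤ 2 ^ (n - μ) := by
  by_contra hcon
  push Not at hcon
  have key : ∀ j ≤ p, g (p + j) + j * (2 ^ (n - μ) + 1) ≤ g p := by
    intro j
    induction j with
    | zero => intro _; simp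
    | succ j ih =>
      intro hj
      have h1 := ih (by omega)
      have h2 := hcon (p + j) (by omega) (by omega)
      have h3 := hanti (p + j) (by omega) (by omega)
      rw [show p + (j + 1) = p + j + 1 by ring]
      have h4 : g (p + j + 1) + (2 ^ (n - μ) + 1) ≤ g (p + j) := by omega
      calc g (p + j + 1) + (j + 1) * (2 ^ (n - μ) + 1)
          = g (p + j + 1) + (2 ^ (n - μ) + 1) + j * (2 ^ (n - μ) + 1) := by ring
        _ ≤ g (p + j) + j * (2 ^ (n - μ) + 1) := by omega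
        _ ≤ g p := h1
  have h1 := key p le_rfl
  have h2 : 2 ^ n = 2 ^ μ * 2 ^ (n - μ) := by
    rw [← pow_add]
    congr 1
    omega
  have h3 : 2 ^ μ * (2 ^ (n - μ) + 1) ≤ p * (2 ^ (n - μ) + 1) := Nat.mul_le_mul_right _ hp
  have h4 : 0 < 2 ^ μ := by positivity
  nlinarith

section round

variable {C n b : ℕ} {α γ : Str} {T0 : Set (Str × Str)} {L : ℕ → ℕ}

open Classical in
theorem new_count {i : ℕ} {T1 T3 : Set (Str × Str)} (hL : Legal C T3) (hγ : γ.length = b)
    (hb : b ≤ L i) (hn : L i ≤ n)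
    (hG : ∀ ζ ∈ (lev (L i)).filter fun ζ => ζ.take b = γ, Good b γ T0 L i T1 ζ T3) :
    2 ^ (n - b) ≤ C * (GG n b γ T0 L i T3 \ GG n b γ T0 L i T1).card := by
  set s := ((lev (L i)).filter fun ζ => ζ.take b = γ) with hs
  have hscard : s.card = 2 ^ (L i - b) := by
    have := card_ext (n := L i) γ (by omega)
    rwa [hγ] at this
  have hex : ∀ ζ : Str, ∃ q : Str, ζ ∈ s → q.length = L i ∧ H T3 ζ q ∧ ¬ NN b γ T0 L i T1 q ∧
      ¬ H T0 γ (q.take b) := by
    intro ζ
    by_cases h : ζ ∈ s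
    · obtain ⟨q, hq⟩ := hG ζ h
      exact ⟨q, fun _ => hq⟩
    · exact ⟨[], fun h' => absurd h' h⟩
  choose Q hQ using hex
  set f : Str × Str → Str := fun z => Q z.1 ++ z.2 with hf
  have h1 : (s ×ˢ lev (n - L i)).card ≤ C * ((s ×ˢ lev (n - L i)).image f).card := by
    refine Finset.card_le_mul_card_image _ C ?_
    intro x hx
    have h2 : ((s ×ˢ lev (n - L i)).filter fun z => f z = x).card ≤
        (s.filter fun ζ => H T3 ζ (x.take (L i))).card := by
      refine Finset.card_le_card_of_injOn (fun z => z.1) ?_ ?_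
      · intro z hz
        rw [Finset.mem_coe, Finset.mem_filter, Finset.mem_product] at hz
        obtain ⟨⟨h3, h4⟩, h5⟩ := hz
        obtain ⟨h6, h7, -, -⟩ := hQ z.1 h3
        rw [Finset.mem_coe, Finset.mem_filter]
        refine ⟨h3, ?_⟩
        rw [← h5]
        change H T3 z.1 ((Q z.1 ++ z.2).take (L i))
        rw [← h6, List.take_left']
        · exact h7
        · rfl
      · intro z hz z' hz' hzz
        rw [Finset.mem_coe, Finset.mem_filter, Finset.mem_product] at hz hz'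
        have h3 : f z = f z' := hz.2.trans hz'.2.symm
        change z.1 = z'.1 at hzz
        change Q z.1 ++ z.2 = Q z'.1 ++ z'.2 at h3
        rw [hzz] at h3
        exact Prod.ext hzz (List.append_cancel_left h3)
    exact h2.trans (card_labs_le hL _ _)
  rw [Finset.card_product, hscard, card_lev] at h1
  have h2 : 2 ^ (L i - b) * 2 ^ (n - L i) = 2 ^ (n - b) := by
    rw [← pow_add]
    congr 1
    omega
  rw [h2] at h1
  refine h1.trans (Nat.mul_le_mul_left _ (Finset.card_le_card ?_))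
  intro x hx
  obtain ⟨z, hz, rfl⟩ := Finset.mem_image.1 hx
  obtain ⟨h3, h4⟩ := Finset.mem_product.1 hz
  obtain ⟨h6, h7, h8, h9⟩ := hQ z.1 h3
  rw [mem_lev] at h4
  have h5 : (f z).take (L i) = Q z.1 := by
    change (Q z.1 ++ z.2).take (L i) = Q z.1
    rw [← h6, List.take_left']
    rfl
  have hlen : (f z).length = n := by
    change (Q z.1 ++ z.2).length = n
    rw [List.length_append, h6, h4]
    omega
  rw [Finset.mem_sdiff, mem_GG, mem_GG, h5]
  have h10 := Finset.mem_filter.1 h3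
  refine ⟨⟨hlen, h6, ⟨z.1, mem_lev.1 h10.1, h10.2, h7⟩, h9⟩, fun h => h8 h.2⟩

open Classical in
/-- forcing a new host of one unit -/
theorem unit_force {a k n' i rr : ℕ} {δ ζ : Str} {K0 K2 : Finset Str} {T1 : Set (Str × Str)}
    (hE : ∀ (T : Set (Str × Str)) (K : Finset Str), Legal C T → Ok n α T K →
      ∀ δ : Str, δ.length = L i → δ.take α.length = α →
      (∀ q : Str, L i ≤ q.length → q.length ≤ L (i + 1) → live n K q → H T δ (q.take (L i)) →
        ((k + 1 : ℕ) : ℕ∞) ≤ (labs T q).encard) →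
      Force C n α (fun T' K' => ∃ p : Str, p.length = L i ∧ live n K' p ∧ H T' δ p ∧ ¬ H T δ p)
        (2 ^ (n - rr)) T K)
    (hab : a ≤ b) (hγ : γ.take a = δ)
    (hus : ∀ q : Str, a ≤ q.length → q.length ≤ n' → live n K0 q → H T0 δ (q.take a) →
      (k : ℕ∞) ≤ (labs T0 q).encard)
    (hL : Monotone L) (hb : ∀ i, b ≤ L i) (hn' : L (i + 1) ≤ n')
    (hT01 : T0 ⊆ T1) (hK0 : K0 ⊆ K2)
    (hD0 : ∀ x : Str, x.length = n → H T0 γ (x.take b) → x ∈ K2)
    (hD1 : ∀ x ∈ GG n b γ T0 L i T1, x ∉ GG n b γ T0 L (i + 1) T1 → x ∈ K2)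
    (hζ : ζ.length = L i) (hζα : ζ.take α.length = α)
    (T : Set (Str × Str)) (K : Finset Str) (hT : T1 ⊆ T) (hK : K2 ⊆ K) (hLT : Legal C T)
    (hO : Ok n α T K) :
    Force C n α (fun T' K' => Suc n a δ T0 T' K' ∨ Good b γ T0 L i T1 ζ T')
      ((2 ^ L i + 1) * 2 ^ (n - rr)) T K := by
  refine Force.iter (fun T => ((lev (L i)).filter fun q => H T ζ q).card) (2 ^ L i) _
    (fun T => (Finset.card_filter_le _ _).trans (card_lev _).le) T1 K2 ?_ T K hT hK hLT hO
  intro T K hT hK hLT hO hQ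
  rw [not_or] at hQ
  have h1 := hE T K hLT hO ζ hζ hζα fun q q1 q2 q3 q4 =>
    cond_of_not hab hγ hus hL hb hn' hT01 hT (hK0.trans hK)
      (fun x h1 h2 => hK (hD0 x h1 h2)) (fun x h1 h2 => hK (hD1 x h1 h2)) hQ.1 hQ.2 q q1 q2 q3 q4
  refine h1.bind (d := 0) hLT hO fun T' K' hTT' _ _ _ hP => Force.done (Or.inr ?_)
  obtain ⟨p, hp1, -, hp2, hp3⟩ := hP
  refine Finset.card_lt_card ((Finset.ssubset_iff_of_subset ?_).2 ⟨p, ?_, ?_⟩)
  · intro q hq
    rw [Finset.mem_filter] at *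
    exact ⟨hq.1, hq.2.mono hTT'⟩
  · rw [Finset.mem_filter, mem_lev]
    exact ⟨hp1, hp2⟩
  · rw [Finset.mem_filter]
    exact fun h => hp3 h.2

end round

end Pool.Agent.RKr
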