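import Pool.Agent.RKr.Valid

/-!
# Running a certificate against an enumeration of entries
-/

namespace Pool.Agent.RKr

open Primrec

/-- `q` has the history of `z` and kills everything which `z` kills -/
def Rp (q z : Posn) : Prop := q.1 = z.1 ∧ ∀ x ∈ z.2, x ∈ q.2

instance : DecidableRel Rp := fun q z => by unfold Rp; infer_instance

theorem primrec_Rp : PrimrecRel Rp := by
  unfold Rp
  refine PrimrecPred.and ?_ ?_
  · exact PrimrecRel.comp Primrec.eq (Primrec.fst.comp Primrec.fst) (Primrec.fst.comp Primrec.snd)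
  · exact PrimrecPred.comp (p := fun w : List (List Bool) × List (List Bool) =>
      ∀ x ∈ w.1, x ∈ w.2) sub_rel (f := fun z : Posn × Posn => (z.2.2, z.1.2))
      (Primrec.pair (Primrec.snd.comp Primrec.snd) (Primrec.snd.comp Primrec.fst))

/-- the first position of the list with the history of `z` killing everything which `z` kills -/
def pick (S : List Posn) (z : Posn) : Posn := ((S.filter fun q => Rp q z).head?).getD z

theorem primrec_pick : Primrec₂ pick := by
  unfold pick
  have h : Primrec₂ fun (S : List Posn) (z : Posn) => S.filter fun q => Rp q z :=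
    primrec_Rp.listFilter
  exact Primrec.option_getD.comp (Primrec.list_head?.comp h) Primrec.snd

theorem pick_spec {S : List Posn} {z : Posn} (h : ∃ q ∈ S, Rp q z) :
    pick S z ∈ S ∧ Rp (pick S z) z := by
  obtain ⟨q, h1, h2⟩ := h
  unfold pick
  have h3 : q ∈ S.filter fun q => Rp q z := List.mem_filter.2 ⟨h1, by simpa using h2⟩
  cases h4 : S.filter fun q => Rp q z with
  | nil => rw [h4] at h3; simp at h3
  | cons a l =>
    have h5 : a ∈ S.filter fun q => Rp q z := by rw [h4]; simp
    have h6 := List.mem_filter.1 h5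
    simp only [List.head?_cons, Option.getD_some]
    exact ⟨h6.1, by simpa using h6.2⟩

/-- the entry `e` is relevant and new -/
def New (k : ℕ) (c : Cert) (p : Posn) (e : Ent) : Prop :=
  e ∈ ents k c.1 ∧ ¬ ∃ e' ∈ p.1, e'.1 = e.1

instance (k : ℕ) (c : Cert) (p : Posn) (e : Ent) : Decidable (New k c p e) := by
  unfold New; infer_instance

theorem primrec_New (k : ℕ) : PrimrecPred fun z : (Cert × Posn) × Ent => New k z.1.1 z.1.2 z.2 := by
  unfold New
  refine PrimrecPred.and ?_ (PrimrecPred.not ?_)
  · exact mem_comp Primrec.snd ((primrec_ents k).comp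
      (Primrec.fst.comp (Primrec.fst.comp Primrec.fst)))
  · exact PrimrecPred.comp primrec_key (f := fun z : (Cert × Posn) × Ent => (z.2, z.1.2.1))
      (Primrec.pair Primrec.snd (Primrec.fst.comp (Primrec.snd.comp Primrec.fst)))

/-- one stage of the run -/
def stepR (k : ℕ) (c : Cert) (p : Posn) (o : Option Ent) : Posn :=
  Option.casesOn o p fun e => if New k c p e then pick c.2 (e :: p.1, p.2) else p

theorem primrec_stepR (k : ℕ) :
    Primrec fun z : (Cert × Posn) × Option Ent => stepR k z.1.1 z.1.2 z.2 := by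
  unfold stepR
  refine Primrec.option_casesOn Primrec.snd (Primrec.snd.comp Primrec.fst) ?_
  have h1 : PrimrecPred fun w : ((Cert × Posn) × Option Ent) × Ent => New k w.1.1.1 w.1.1.2 w.2 :=
    PrimrecPred.comp (primrec_New k) (f := fun w : ((Cert × Posn) × Option Ent) × Ent =>
      ((w.1.1.1, w.1.1.2), w.2)) (Primrec.pair (Primrec.fst.comp Primrec.fst) Primrec.snd)
  have h2 : Primrec fun w : ((Cert × Posn) × Option Ent) × Ent =>
      pick w.1.1.1.2 (w.2 :: w.1.1.2.1, w.1.1.2.2) :=
    primrec_pick.comp (Primrec.snd.comp (Primrec.fst.comp (Primrec.fst.comp Primrec.fst)))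
      (Primrec.pair (Primrec.list_cons.comp Primrec.snd
        (Primrec.fst.comp (Primrec.snd.comp (Primrec.fst.comp Primrec.fst))))
        (Primrec.snd.comp (Primrec.snd.comp (Primrec.fst.comp Primrec.fst))))
  exact Primrec.ite h1 h2 (Primrec.snd.comp (Primrec.fst.comp Primrec.fst))

/-- the run of the certificate `c` against the enumeration `En` -/
def run (k : ℕ) (En : ℕ → Option Ent) (c : Cert) (s : ℕ) : Posn :=
  Nat.rec (pick c.2 ([], [])) (fun s p => stepR k c p (En s)) s

theorem run_succ (k : ℕ) (En : ℕ → Option Ent) (c : Cert) (s : ℕ) :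
    run k En c (s + 1) = stepR k c (run k En c s) (En s) := rfl

theorem primrec_run (k : ℕ) {En : ℕ → Option Ent} (hEn : Primrec En) :
    Primrec₂ (run k En) := by
  unfold run
  refine Primrec.nat_rec' (f := fun z : Cert × ℕ => z.2) (g := fun z => pick z.1.2 ([], []))
    (h := fun z p => stepR k z.1 p.2 (En p.1)) Primrec.snd ?_ ?_
  · exact primrec_pick.comp (Primrec.snd.comp Primrec.fst) (Primrec.const _)
  · exact Primrec.comp (primrec_stepR k)
      (g := fun w : (Cert × ℕ) × (ℕ × Posn) => ((w.1.1, w.2.2), En w.2.1))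
      (Primrec.pair (Primrec.pair (Primrec.fst.comp Primrec.fst)
        (Primrec.snd.comp Primrec.snd)) (hEn.comp (Primrec.fst.comp Primrec.snd)))

theorem stab (g : ℕ → ℕ) (B : ℕ) (hB : ∀ s, g s ≤ B) (hg : ∀ s, g s ≤ g (s + 1)) :
    ∃ s0, ∀ s ≥ s0, g s = g s0 := by
  by_contra hcon
  push Not at hcon
  have hmono : Monotone g := monotone_nat_of_le_succ hg
  have h : ∀ m : ℕ, ∃ s, m ≤ g s := by
    intro m
    induction m with
    | zero => exact ⟨0, Nat.zero_le _⟩
    | succ m ih =>
      obtain ⟨s, hs⟩ := ih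
      obtain ⟨t, ht, hne⟩ := hcon s
      have := hmono ht
      exact ⟨t, by omega⟩
  obtain ⟨s, hs⟩ := h (B + 1)
  have := hB s
  omega

section valid

variable {k r : ℕ} {α : List Bool} {c : Cert} {En : ℕ → Option Ent}

theorem run_zero (hv : Valid k r α c) : run k En c 0 ∈ c.2 ∧ (run k En c 0).1 = [] := by
  obtain ⟨p, hp, hp1⟩ := hv.1
  obtain ⟨h1, h2, -⟩ := pick_spec (S := c.2) (z := ([], [])) ⟨p, hp, hp1, by simp⟩
  exact ⟨h1, h2⟩

theorem step_cases (hv : Valid k r α c) {p : Posn} (hp : p ∈ c.2) (o : Option Ent) :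
    (stepR k c p o = p ∧ ∀ e, o = some e → e ∈ ents k c.1 → ∃ e' ∈ p.1, e'.1 = e.1) ∨
    ∃ e, o = some e ∧ stepR k c p o ∈ c.2 ∧ (stepR k c p o).1 = e :: p.1 ∧
      ∀ x ∈ p.2, x ∈ (stepR k c p o).2 := by
  cases o with
  | none => exact Or.inl ⟨rfl, by simp⟩
  | some e =>
    by_cases h : New k c p e
    · right
      have h1 : stepR k c p (some e) = pick c.2 (e :: p.1, p.2) := if_pos h
      rw [h1]
      rcases hv.2.1 p hp e h.1 with h2 | ⟨q, h2, h3⟩
      · exact absurd h2 h.2
      · obtain ⟨h4, h5, h6⟩ := pick_spec (S := c.2) (z := (e :: p.1, p.2)) ⟨q, h2, h3⟩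
        exact ⟨e, rfl, h4, h5, h6⟩
    · left
      have h1 : stepR k c p (some e) = p := if_neg h
      refine ⟨h1, ?_⟩
      rintro e' h2 h3
      obtain rfl : e = e' := by simpa using h2
      by_contra hcon
      exact h ⟨h3, hcon⟩

theorem run_mem (hv : Valid k r α c) (s : ℕ) : run k En c s ∈ c.2 := by
  induction s with
  | zero => exact (run_zero hv).1
  | succ s ih =>
    rw [run_succ]
    rcases step_cases hv ih (En s) with ⟨h1, -⟩ | ⟨e, -, h2, -⟩
    · rw [h1]; exact ih
    · exact h2

theorem run_graph (hv : Valid k r α c) (s : ℕ) : ∀ e ∈ (run k En c s).1, ∃ t, En t = some e := by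
  induction s with
  | zero => rw [(run_zero hv).2]; simp
  | succ s ih =>
    rw [run_succ]
    rcases step_cases hv (run_mem hv s) (En s) with ⟨h1, -⟩ | ⟨e, h1, -, h2, -⟩
    · rw [h1]; exact ih
    · rw [h2]
      intro e' he'
      rcases List.mem_cons.1 he' with rfl | he'
      · exact ⟨s, h1⟩
      · exact ih e' he'

/-- the run is eventually constant; the limit position contains all relevant entries -/
theorem run_limit (hv : Valid k r α c)
    (hfun : ∀ s t e e', En s = some e → En t = some e' → e.1 = e'.1 → e = e') :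
    ∃ p ∈ c.2, (∀ s, ∀ x ∈ (run k En c s).2, x ∈ p.2) ∧ (∃ s, run k En c s = p) ∧
      ∀ e, e ∈ ents k c.1 → (∃ s, En s = some e) → e ∈ p.1 := by
  set g : ℕ → ℕ := fun s => (run k En c s).1.length with hg
  have hstep : ∀ s, (run k En c (s + 1) = run k En c s) ∨ g s + 1 = g (s + 1) := by
    intro s
    rcases step_cases hv (run_mem hv s) (En s) with ⟨h1, -⟩ | ⟨e, h1, -, h2, -⟩
    · left; rw [run_succ, h1]
    · right
      simp only [hg]
      rw [run_succ, h2, List.length_cons]
  have hkill : ∀ s, ∀ x ∈ (run k En c s).2, x ∈ (run k En c (s + 1)).2 := by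
    intro s x hx
    rw [run_succ]
    rcases step_cases hv (run_mem hv s) (En s) with ⟨h1, -⟩ | ⟨e, h1, -, h2, h3⟩
    · rw [h1]; exact hx
    · exact h3 x hx
  have hhist : ∀ s, ∀ x ∈ (run k En c s).1, x ∈ (run k En c (s + 1)).1 := by
    intro s x hx
    rw [run_succ]
    rcases step_cases hv (run_mem hv s) (En s) with ⟨h1, -⟩ | ⟨e, h1, -, h2, h3⟩
    · rw [h1]; exact hx
    · rw [h2]; exact List.mem_cons_of_mem _ hx
  have hkill' : ∀ s t, s ≤ t → ∀ x ∈ (run k En c s).2, x ∈ (run k En c t).2 := by
    intro s t hst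
    induction hst with
    | refl => exact fun x hx => hx
    | step _ ih => exact fun x hx => hkill _ x (ih x hx)
  have hhist' : ∀ s t, s ≤ t → ∀ x ∈ (run k En c s).1, x ∈ (run k En c t).1 := by
    intro s t hst
    induction hst with
    | refl => exact fun x hx => hx
    | step _ ih => exact fun x hx => hhist _ x (ih x hx)
  obtain ⟨B, hB⟩ : ∃ B, ∀ p ∈ c.2, p.1.length ≤ B := by
    refine ⟨(c.2.map fun p => p.1.length).sum, fun p hp => ?_⟩
    exact List.single_le_sum (by simp) _ (List.mem_map.2 ⟨p, hp, rfl⟩)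
  obtain ⟨s0, hs0⟩ := stab g B (fun s => hB _ (run_mem hv s)) (fun s => by
    rcases hstep s with h | h
    · simp only [hg]; rw [h]
    · omega)
  have hconst : ∀ s ≥ s0, run k En c s = run k En c s0 := by
    intro s hs
    induction s, hs using Nat.le_induction with
    | base => rfl
    | succ s hs ih =>
      rcases hstep s with h | h
      · rw [h, ih]
      · have h1 := hs0 s hs
        have h2 := hs0 (s + 1) (by omega)
        omega
  refine ⟨run k En c s0, run_mem hv s0, ?_, ⟨s0, rfl⟩, ?_⟩
  · intro s x hx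
    rcases le_total s s0 with h | h
    · exact hkill' s s0 h x hx
    · rw [hconst s h] at hx
      exact hx
  · rintro e he ⟨s, hs⟩
    have h1 : ∃ e' ∈ (run k En c (s + 1)).1, e'.1 = e.1 := by
      rcases step_cases hv (run_mem hv s) (En s) with ⟨h1, h2⟩ | ⟨e', h1, -, h2, -⟩
      · rw [run_succ, h1]
        exact h2 e hs he
      · rw [run_succ, h2]
        obtain rfl : e' = e := by
          rw [h1] at hs
          simpa using hs
        exact ⟨e', List.mem_cons_self, rfl⟩
    obtain ⟨e', h2, h3⟩ := h1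
    obtain ⟨t, ht⟩ := run_graph hv _ e' h2
    obtain rfl := hfun t s e' e ht hs h3
    rcases le_total (s + 1) s0 with h | h
    · exact hhist' (s + 1) s0 h _ h2
    · rw [hconst (s + 1) h] at h2
      exact h2

end valid

end Pool.Agent.RKr
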