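import Pool.Agent.RKr.Count

/-!
# The inductive claim, its base case and the ingredients of the step
-/

namespace Pool.Agent.RKr

/-- The inductive claim: if all live nodes below the live hosts of `δ` (up to the level `n'`) host
at least `k` labels, then the killer can force a new live host of `δ` at little cost. -/
def E (C : ℕ) (α : Str) (k : ℕ) : Prop :=
  ∀ a r : ℕ, ∃ N, a ≤ N ∧ r ≤ N ∧ ∀ n' n, N ≤ n' → n' ≤ n →
    ∀ (T : Set (Str × Str)) (K : Finset Str), Legal C T → Ok n α T K →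
    ∀ δ : Str, δ.length = a → δ.take α.length = α →
    (∀ q : Str, a ≤ q.length → q.length ≤ n' → live n K q → H T δ (q.take a) →
      (k : ℕ∞) ≤ (labs T q).encard) →
    Force C n α (fun T' K' => ∃ p : Str, p.length = a ∧ live n K' p ∧ H T' δ p ∧ ¬ H T δ p)
      (2 ^ (n - r)) T K

theorem take_take_of_le {x : Str} {i j : ℕ} (h : i ≤ j) : (x.take j).take i = x.take i := by
  rw [List.take_take]
  congr 1
  omega

theorem take_alpha {α δ γ : Str} {a : ℕ} (h1 : δ.length = a) (h2 : δ.take α.length = α)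
    (h3 : γ.take a = δ) : γ.take α.length = α := by
  have ha : α.length ≤ a := by
    have := congrArg List.length h2
    rw [List.length_take] at this
    omega
  rw [← take_take_of_le ha, h3, h2]

open Classical in
theorem E_base (C : ℕ) (α : Str) : E C α C := by
  intro a r
  refine ⟨a + r + C, by omega, by omega, ?_⟩
  intro n' n hn' hn T K hL hO δ hδ hδα hus
  obtain ⟨γ, hγ, hγδ, hfew⟩ := exists_few_hosts hL δ n' (by omega)
  rw [hδ] at hγδ hfew
  set S := (lev n').filter fun q => H T γ q with hS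
  set D := (lev n).filter fun x => x.take n' ∈ S with hD
  have hDcard : D.card ≤ 2 ^ (n - r) := by
    rw [hD, card_ext_set hn S fun q hq => mem_lev.1 (Finset.mem_filter.1 hq).1]
    calc S.card * 2 ^ (n - n') ≤ C * 2 ^ a * 2 ^ (n - n') := Nat.mul_le_mul_right _ hfew
      _ ≤ 2 ^ C * 2 ^ a * 2 ^ (n - n') := by
          have : C ≤ 2 ^ C := Nat.lt_two_pow_self.le
          gcongr
      _ = 2 ^ (C + a + (n - n')) := by rw [pow_add, pow_add]
      _ ≤ 2 ^ (n - r) := Nat.pow_le_pow_right (by norm_num) (by omega)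
  refine Force.kill D (fun x hx => mem_lev.1 (Finset.mem_filter.1 hx).1) (c' := 0) (by omega)
    fun T' hT hL' hO' => Force.done ?_
  obtain ⟨q, hq, ⟨x, hx1, hx2, hx3⟩, hq2⟩ := hO'.live (ζ := γ) (by omega)
    (take_alpha hδ hδα hγδ)
  rw [hγ] at hq
  rw [hq] at hx3
  have hnot : ¬ H T γ q := by
    intro hH
    apply hx2
    refine Finset.mem_union_right _ (Finset.mem_filter.2 ⟨mem_lev.2 hx1, ?_⟩)
    rw [hx3]
    exact Finset.mem_filter.2 ⟨mem_lev.2 hq, hH⟩
  refine ⟨q.take a, ?_, ⟨x, hx1, hx2, ?_⟩, ?_, ?_⟩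
  · rw [List.length_take]
    omega
  · rw [List.length_take, hq, min_eq_left (by omega), ← hx3, take_take_of_le (by omega)]
  · have := hq2.take a
    rwa [hγδ] at this
  · intro hH
    have h1 := hus q (by omega) (by omega) ⟨x, hx1, fun h => hx2 (Finset.mem_union_left _ h), by
      rw [hq, hx3]⟩ hH
    have h2 : insert γ (labs T q) ⊆ labs T' q := by
      intro z hz
      rcases hz with rfl | hz
      · exact hq2
      · exact labs_mono hT q hz
    have h3 := (Set.encard_le_encard h2).trans (labs_encard hL' q)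
    rw [Set.encard_insert_of_notMem (by exact hnot)] at h3
    have h4 : ((C : ℕ∞) + 1) ≤ C := (add_le_add_left h1 1).trans h3
    have h5 : C + 1 ≤ C := by exact_mod_cast h4
    omega

section step

variable {C n b : ℕ} {α γ : Str} {T0 : Set (Str × Str)} {L : ℕ → ℕ}

/-- the nodes of level `L i` which host an extension of `γ` and whose initial segment of length `b`
was not a host of `γ` originally -/
def NN (b : ℕ) (γ : Str) (T0 : Set (Str × Str)) (L : ℕ → ℕ) (i : ℕ) (T : Set (Str × Str))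
    (q : Str) : Prop :=
  q.length = L i ∧ (∃ ζ : Str, ζ.length = L i ∧ ζ.take b = γ ∧ H T ζ q) ∧ ¬ H T0 γ (q.take b)

open Classical in
/-- the strings of length `n` below `NN i` -/
noncomputable def GG (n b : ℕ) (γ : Str) (T0 : Set (Str × Str)) (L : ℕ → ℕ) (i : ℕ)
    (T : Set (Str × Str)) : Finset Str :=
  (lev n).filter fun x => NN b γ T0 L i T (x.take (L i))

open Classical in
theorem mem_GG {i : ℕ} {T : Set (Str × Str)} {x : Str} :
    x ∈ GG n b γ T0 L i T ↔ x.length = n ∧ NN b γ T0 L i T (x.take (L i)) := by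
  unfold GG
  rw [Finset.mem_filter, mem_lev]

theorem GG_mono {i : ℕ} {T T' : Set (Str × Str)} (hT : T ⊆ T') :
    GG n b γ T0 L i T ⊆ GG n b γ T0 L i T' := by
  intro x hx
  rw [mem_GG] at *
  obtain ⟨h1, h2, ⟨ζ, h3, h4, h5⟩, h6⟩ := hx
  exact ⟨h1, h2, ⟨ζ, h3, h4, h5.mono hT⟩, h6⟩

theorem GG_anti (hL : Monotone L) (hb : ∀ i, b ≤ L i) {i j : ℕ} (hij : i ≤ j) (hj : L j ≤ n)
    (T : Set (Str × Str)) : GG n b γ T0 L j T ⊆ GG n b γ T0 L i T := by
  intro x hx
  rw [mem_GG] at *
  obtain ⟨h1, h2, ⟨ζ, h3, h4, h5⟩, h6⟩ := hx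
  have hLij := hL hij
  refine ⟨h1, ?_, ⟨ζ.take (L i), ?_, ?_, ?_⟩, ?_⟩
  · rw [List.length_take]
    omega
  · rw [List.length_take]
    omega
  · rw [take_take_of_le (hb i), h4]
  · have := h5.take (L i)
    rwa [take_take_of_le hLij] at this
  · rw [take_take_of_le (hb i)]
    rwa [take_take_of_le (hb j)] at h6

/-- the unit `ζ` has a host which is new compared with the state `T1` -/
def Good (b : ℕ) (γ : Str) (T0 : Set (Str × Str)) (L : ℕ → ℕ) (i : ℕ) (T1 : Set (Str × Str))
    (ζ : Str) (T : Set (Str × Str)) : Prop :=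
  ∃ q : Str, q.length = L i ∧ H T ζ q ∧ ¬ NN b γ T0 L i T1 q ∧ ¬ H T0 γ (q.take b)

theorem Good.mono {i : ℕ} {T1 T T' : Set (Str × Str)} {ζ : Str} (hT : T ⊆ T')
    (h : Good b γ T0 L i T1 ζ T) : Good b γ T0 L i T1 ζ T' := by
  obtain ⟨q, h1, h2, h3, h4⟩ := h
  exact ⟨q, h1, h2.mono hT, h3, h4⟩

/-- the goal of the whole procedure -/
def Suc (n a : ℕ) (δ : Str) (T0 : Set (Str × Str)) (T : Set (Str × Str)) (K : Finset Str) : Prop :=
  ∃ p : Str, p.length = a ∧ live n K p ∧ H T δ p ∧ ¬ H T0 δ p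

/-- the hypothesis of the claim for `k + 1` holds for a unit `ζ` without new host -/
theorem cond_of_not {a k n' i : ℕ} {δ ζ : Str} {K0 K : Finset Str} {T1 T : Set (Str × Str)}
    (hab : a ≤ b) (hγ : γ.take a = δ)
    (hus : ∀ q : Str, a ≤ q.length → q.length ≤ n' → live n K0 q → H T0 δ (q.take a) →
      (k : ℕ∞) ≤ (labs T0 q).encard)
    (hL : Monotone L) (hb : ∀ i, b ≤ L i) (hn' : L (i + 1) ≤ n')
    (hT01 : T0 ⊆ T1) (hT1 : T1 ⊆ T) (hK0 : K0 ⊆ K)
    (hD0 : ∀ x : Str, x.length = n → H T0 γ (x.take b) → x ∈ K)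
    (hD1 : ∀ x ∈ GG n b γ T0 L i T1, x ∉ GG n b γ T0 L (i + 1) T1 → x ∈ K)
    (hS : ¬ Suc n a δ T0 T K) (hG : ¬ Good b γ T0 L i T1 ζ T)
    (q : Str) (h1 : L i ≤ q.length) (h2 : q.length ≤ L (i + 1)) (h3 : live n K q)
    (h4 : H T ζ (q.take (L i))) : ((k + 1 : ℕ) : ℕ∞) ≤ (labs T q).encard := by
  obtain ⟨x, hx1, hx2, hx3⟩ := h3
  have hbi := hb i
  have hLi := hL (Nat.le_succ i)
  have e1 : q.take (L i) = x.take (L i) := by rw [← hx3, take_take_of_le h1]
  have e2 : q.take b = x.take b := by rw [← hx3, take_take_of_le (hbi.trans h1)]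
  have e3 : q.take a = x.take a := by rw [← hx3, take_take_of_le (hab.trans (hbi.trans h1))]
  have hnd : ¬ H T0 γ (x.take b) := fun h => hx2 (hD0 x hx1 h)
  have hNN : NN b γ T0 L i T1 (x.take (L i)) := by
    by_contra hcon
    refine hG ⟨q.take (L i), ?_, h4, by rwa [e1], ?_⟩
    · rw [List.length_take]
      omega
    · rwa [take_take_of_le hbi, e2]
  have hx4 : x ∈ GG n b γ T0 L i T1 := mem_GG.2 ⟨hx1, hNN⟩
  have hx5 : x ∈ GG n b γ T0 L (i + 1) T1 := by
    by_contra hcon
    exact hx2 (hD1 x hx4 hcon)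
  obtain ⟨-, -, ⟨ζ', h5, h6, h7⟩, -⟩ := mem_GG.1 hx5
  have h8 : H T1 (ζ'.take q.length) q := by
    have := h7.take q.length
    rwa [take_take_of_le h2, hx3] at this
  have h9 : ¬ H T0 (ζ'.take q.length) q := by
    intro h
    have := h.take b
    rw [take_take_of_le (hbi.trans h1), h6, e2] at this
    exact hnd this
  have h10 : H T δ (q.take a) := by
    have := (h8.mono hT1).take a
    rw [take_take_of_le (hab.trans (hbi.trans h1)), ← take_take_of_le hab, h6, hγ] at this
    exact this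
  have h11 : H T0 δ (q.take a) := by
    by_contra hcon
    refine hS ⟨q.take a, ?_, ⟨x, hx1, hx2, ?_⟩, h10, hcon⟩
    · rw [List.length_take]
      omega
    · rw [List.length_take, e3]
      congr 1
      omega
  have h12 := hus q (by omega) (by omega) ⟨x, hx1, fun h => hx2 (hK0 h), hx3⟩ h11
  have h13 : insert (ζ'.take q.length) (labs T0 q) ⊆ labs T q := by
    intro z hz
    rcases hz with rfl | hz
    · exact h8.mono hT1
    · exact labs_mono (hT01.trans hT1) q hz
  refine le_trans ?_ (Set.encard_le_encard h13)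
  rw [Set.encard_insert_of_notMem (by exact h9), Nat.cast_succ]
  exact add_le_add_left h12 1

end step

end Pool.Agent.RKr
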