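import Pool.Agent.RKr.Cert

/-!
# The validity check of certificates is primitive recursive
-/

namespace Pool.Agent.RKr

open Primrec

theorem length_strs (s : ℕ) : (strs s).length = 2 ^ s := by
  induction s with
  | zero => rfl
  | succ s ih =>
    rw [strs_succ, List.length_flatMap]
    simp [ih, pow_succ]

/-- `τ` hosts `σ` according to the history `h` -/
def HB (k N : ℕ) (h : List Ent) (σ τ : List Bool) : Prop :=
  ∀ i < N + 1, ∃ j < k + 1, ((τ.take i, j), σ.take i) ∈ h

/-- the certificate contains an initial position -/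
def V1 (c : Cert) : Prop := ∃ p ∈ c.2, p.1 = []

/-- `q` is an answer of the killer to the new entry `e` in the position `p` -/
def Ans (q : Posn) (e : Ent) (p : Posn) : Prop := q.1 = e :: p.1 ∧ ∀ x ∈ p.2, x ∈ q.2

/-- the certificate answers all new entries -/
def V2 (k : ℕ) (c : Cert) : Prop :=
  ∀ p ∈ c.2, ∀ e ∈ ents k c.1, (∃ e' ∈ p.1, e'.1 = e.1) ∨ ∃ q ∈ c.2, Ans q e p

/-- the killed strings are few -/
def V3 (r : ℕ) (c : Cert) : Prop :=
  ∀ p ∈ c.2, (∀ x ∈ p.2, x.length = c.1) ∧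
    (p.2.length ≤ (strs c.1).length ∧ p.2.length * (strs r).length ≤ (strs c.1).length)

/-- some string extending `α` has no live host -/
def V4 (k : ℕ) (α : List Bool) (c : Cert) : Prop :=
  ∀ p ∈ c.2, ∃ σ ∈ strs c.1, σ.take α.length = α ∧ ∀ τ ∈ strs c.1, τ ∈ p.2 ∨ ¬ HB k c.1 p.1 σ τ

/-- validity of a certificate -/
def Valid (k r : ℕ) (α : List Bool) (c : Cert) : Prop := V1 c ∧ V2 k c ∧ V3 r c ∧ V4 k α c

theorem mem_rel {α : Type*} [Primcodable α] : PrimrecRel fun (x : α) (l : List α) => x ∈ l := by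
  have h : PrimrecRel fun (l : List α) (x : α) => ∃ a ∈ l, a = x :=
    PrimrecRel.exists_mem_list Primrec.eq
  have h2 : PrimrecRel fun (l : List α) (x : α) => x ∈ l := h.of_eq fun l x => by simp
  exact PrimrecRel.comp₂ h2 Primrec₂.right Primrec₂.left

theorem mem_comp {α β : Type*} [Primcodable α] [Primcodable β] {f : β → α} {g : β → List α}
    (hf : Primrec f) (hg : Primrec g) : PrimrecPred fun b => f b ∈ g b :=
  PrimrecPred.comp (p := fun z : α × List α => z.1 ∈ z.2) mem_rel (Primrec.pair hf hg)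

theorem ex_lt {β : Type*} [Primcodable β] {R : ℕ → β → Prop} (h : PrimrecRel R) :
    PrimrecRel fun (m : ℕ) (y : β) => ∃ j < m, R j y := by
  have h1 : PrimrecRel fun (l : List ℕ) (y : β) => ∃ j ∈ l, R j y := h.exists_mem_list
  have h2 := PrimrecPred.comp (p := fun w : List ℕ × β => ∃ j ∈ w.1, R j w.2) h1
    (f := fun z : ℕ × β => (List.range z.1, z.2))
    (Primrec.pair (Primrec.list_range.comp Primrec.fst) Primrec.snd)
  exact h2.of_eq fun z => by simp

theorem all_lt {β : Type*} [Primcodable β] {R : ℕ → β → Prop} (h : PrimrecRel R) :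
    PrimrecRel fun (m : ℕ) (y : β) => ∀ j < m, R j y := by
  have h1 : PrimrecRel fun (l : List ℕ) (y : β) => ∀ j ∈ l, R j y := h.forall_mem_list
  have h2 := PrimrecPred.comp (p := fun w : List ℕ × β => ∀ j ∈ w.1, R j w.2) h1
    (f := fun z : ℕ × β => (List.range z.1, z.2))
    (Primrec.pair (Primrec.list_range.comp Primrec.fst) Primrec.snd)
  exact h2.of_eq fun z => by simp

theorem sub_rel {α : Type*} [Primcodable α] :
    PrimrecRel fun (l l' : List α) => ∀ x ∈ l, x ∈ l' :=
  PrimrecRel.forall_mem_list mem_rel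

theorem primrec_V1 : PrimrecPred V1 := by
  have h : PrimrecPred fun p : Posn => p.1 = ([] : List Ent) :=
    PrimrecRel.comp Primrec.eq Primrec.fst (Primrec.const [])
  exact h.exists_mem_list.comp Primrec.snd

theorem primrec_Ans : PrimrecPred fun z : Posn × (Ent × Posn) => Ans z.1 z.2.1 z.2.2 := by
  unfold Ans
  refine PrimrecPred.and ?_ ?_
  · exact PrimrecRel.comp Primrec.eq (Primrec.fst.comp Primrec.fst)
      (Primrec.list_cons.comp (Primrec.fst.comp Primrec.snd)
        (Primrec.fst.comp (Primrec.snd.comp Primrec.snd)))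
  · exact PrimrecRel.comp sub_rel (Primrec.snd.comp (Primrec.snd.comp Primrec.snd))
      (Primrec.snd.comp Primrec.fst)

theorem primrec_key : PrimrecPred fun z : Ent × List Ent => ∃ e' ∈ z.2, e'.1 = z.1.1 := by
  have h : PrimrecRel fun (e' e : Ent) => e'.1 = e.1 :=
    PrimrecRel.comp Primrec.eq (Primrec.fst.comp Primrec.fst) (Primrec.fst.comp Primrec.snd)
  exact PrimrecRel.comp h.exists_mem_list Primrec.snd Primrec.fst

theorem primrec_V2 (k : ℕ) : PrimrecPred (V2 k) := by
  unfold V2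
  have h1 : PrimrecRel fun (e : Ent) (y : Posn × Cert) =>
      (∃ e' ∈ y.1.1, e'.1 = e.1) ∨ ∃ q ∈ y.2.2, Ans q e y.1 := by
    refine PrimrecPred.or ?_ ?_
    · exact primrec_key.comp (Primrec.pair Primrec.fst
        (Primrec.fst.comp (Primrec.fst.comp Primrec.snd)))
    · have h2 : PrimrecRel fun (q : Posn) (z : Ent × Posn) => Ans q z.1 z.2 := primrec_Ans
      exact PrimrecRel.comp h2.exists_mem_list (Primrec.snd.comp (Primrec.snd.comp Primrec.snd))
        (Primrec.pair Primrec.fst (Primrec.fst.comp Primrec.snd))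
  have h3 : PrimrecRel fun (p : Posn) (c : Cert) => ∀ e ∈ ents k c.1,
      (∃ e' ∈ p.1, e'.1 = e.1) ∨ ∃ q ∈ c.2, Ans q e p :=
    PrimrecRel.comp h1.forall_mem_list ((primrec_ents k).comp (Primrec.fst.comp Primrec.snd))
      (Primrec.pair Primrec.fst Primrec.snd)
  exact PrimrecRel.comp h3.forall_mem_list Primrec.snd Primrec.id

theorem primrec_V3 : PrimrecPred fun z : ℕ × Cert => V3 z.1 z.2 := by
  unfold V3
  have h1 : PrimrecRel fun (x : List Bool) (N : ℕ) => x.length = N :=
    PrimrecRel.comp Primrec.eq (Primrec.list_length.comp Primrec.fst) Primrec.snd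
  have h2 : PrimrecRel fun (p : Posn) (z : ℕ × Cert) => (∀ x ∈ p.2, x.length = z.2.1) ∧
      (p.2.length ≤ (strs z.2.1).length ∧
        p.2.length * (strs z.1).length ≤ (strs z.2.1).length) := by
    have k1 : Primrec fun y : Posn × (ℕ × Cert) => y.1.2.length :=
      Primrec.list_length.comp (Primrec.snd.comp Primrec.fst)
    have k2 : Primrec fun y : Posn × (ℕ × Cert) => (strs y.2.2.1).length :=
      Primrec.list_length.comp (primrec_strs.comp
        (Primrec.fst.comp (Primrec.snd.comp Primrec.snd)))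
    have k3 : Primrec fun y : Posn × (ℕ × Cert) => (strs y.2.1).length :=
      Primrec.list_length.comp (primrec_strs.comp (Primrec.fst.comp Primrec.snd))
    refine PrimrecPred.and ?_ (PrimrecPred.and ?_ ?_)
    · exact PrimrecRel.comp h1.forall_mem_list (Primrec.snd.comp Primrec.fst)
        (Primrec.fst.comp (Primrec.snd.comp Primrec.snd))
    · exact PrimrecRel.comp Primrec.nat_le k1 k2
    · exact PrimrecRel.comp Primrec.nat_le (Primrec.nat_mul.comp k1 k3) k2
  exact PrimrecRel.comp h2.forall_mem_list (Primrec.snd.comp Primrec.snd) Primrec.id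

theorem primrec_HB (k : ℕ) : PrimrecPred fun z : (ℕ × List Ent) × (List Bool × List Bool) =>
    HB k z.1.1 z.1.2 z.2.1 z.2.2 := by
  unfold HB
  have h1 : PrimrecRel fun (j : ℕ) (y : ℕ × ((ℕ × List Ent) × (List Bool × List Bool))) =>
      ((y.2.2.2.take y.1, j), y.2.2.1.take y.1) ∈ y.2.1.2 := by
    have k1 : Primrec fun w : ℕ × (ℕ × ((ℕ × List Ent) × (List Bool × List Bool))) =>
        w.2.2.2.2.take w.2.1 :=
      Primrec.list_take.comp (Primrec.fst.comp Primrec.snd) (Primrec.snd.comp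
        (Primrec.snd.comp (Primrec.snd.comp Primrec.snd)))
    have k2 : Primrec fun w : ℕ × (ℕ × ((ℕ × List Ent) × (List Bool × List Bool))) =>
        w.2.2.2.1.take w.2.1 :=
      Primrec.list_take.comp (Primrec.fst.comp Primrec.snd) (Primrec.fst.comp
        (Primrec.snd.comp (Primrec.snd.comp Primrec.snd)))
    have k3 : Primrec fun w : ℕ × (ℕ × ((ℕ × List Ent) × (List Bool × List Bool))) =>
        w.2.2.1.2 := Primrec.snd.comp (Primrec.fst.comp (Primrec.snd.comp Primrec.snd))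
    exact mem_comp (Primrec.pair (Primrec.pair k1 Primrec.fst) k2) k3
  have h1e : PrimrecRel fun (m : ℕ) (y : ℕ × ((ℕ × List Ent) × (List Bool × List Bool))) =>
      ∃ j < m, ((y.2.2.2.take y.1, j), y.2.2.1.take y.1) ∈ y.2.1.2 := ex_lt h1
  have h2 : PrimrecRel fun (i : ℕ) (z : (ℕ × List Ent) × (List Bool × List Bool)) =>
      ∃ j < k + 1, ((z.2.2.take i, j), z.2.1.take i) ∈ z.1.2 :=
    PrimrecPred.comp (p := fun w : ℕ × (ℕ × ((ℕ × List Ent) × (List Bool × List Bool))) =>
      ∃ j < w.1, ((w.2.2.2.2.take w.2.1, j), w.2.2.2.1.take w.2.1) ∈ w.2.2.1.2) h1e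
      (Primrec.pair (Primrec.const (k + 1)) (Primrec.pair Primrec.fst Primrec.snd))
  have h2e : PrimrecRel fun (m : ℕ) (z : (ℕ × List Ent) × (List Bool × List Bool)) =>
      ∀ i < m, ∃ j < k + 1, ((z.2.2.take i, j), z.2.1.take i) ∈ z.1.2 := all_lt h2
  exact PrimrecPred.comp (p := fun w : ℕ × ((ℕ × List Ent) × (List Bool × List Bool)) =>
      ∀ i < w.1, ∃ j < k + 1, ((w.2.2.2.take i, j), w.2.2.1.take i) ∈ w.2.1.2) h2e
      (Primrec.pair (Primrec.succ.comp (Primrec.fst.comp Primrec.fst)) Primrec.id)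

theorem primrec_V4 (k : ℕ) : PrimrecPred fun z : List Bool × Cert => V4 k z.1 z.2 := by
  unfold V4
  have h1 : PrimrecRel fun (τ : List Bool) (y : List Bool × (Posn × Cert)) =>
      τ ∈ y.2.1.2 ∨ ¬ HB k y.2.2.1 y.2.1.1 y.1 τ := by
    refine PrimrecPred.or ?_ (PrimrecPred.not ?_)
    · exact mem_comp (f := fun w : List Bool × (List Bool × (Posn × Cert)) => w.1)
        (g := fun w : List Bool × (List Bool × (Posn × Cert)) => w.2.2.1.2) Primrec.fst
        (Primrec.snd.comp (Primrec.fst.comp (Primrec.snd.comp Primrec.snd)))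
    · exact PrimrecPred.comp (primrec_HB k)
        (f := fun w : List Bool × (List Bool × (Posn × Cert)) =>
          ((w.2.2.2.1, w.2.2.1.1), (w.2.1, w.1)))
        (Primrec.pair (Primrec.pair
          (Primrec.fst.comp (Primrec.snd.comp (Primrec.snd.comp Primrec.snd)))
          (Primrec.fst.comp (Primrec.fst.comp (Primrec.snd.comp Primrec.snd))))
          (Primrec.pair (Primrec.fst.comp Primrec.snd) Primrec.fst))
  have h1e : PrimrecRel fun (l : List (List Bool)) (y : List Bool × (Posn × Cert)) =>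
      ∀ τ ∈ l, τ ∈ y.2.1.2 ∨ ¬ HB k y.2.2.1 y.2.1.1 y.1 τ := h1.forall_mem_list
  have h2 : PrimrecRel fun (σ : List Bool) (y : Posn × (List Bool × Cert)) =>
      σ.take y.2.1.length = y.2.1 ∧ ∀ τ ∈ strs y.2.2.1, τ ∈ y.1.2 ∨
        ¬ HB k y.2.2.1 y.1.1 σ τ := by
    refine PrimrecPred.and ?_ ?_
    · exact PrimrecRel.comp Primrec.eq (Primrec.list_take.comp (Primrec.list_length.comp
        (Primrec.fst.comp (Primrec.snd.comp Primrec.snd))) Primrec.fst)
        (Primrec.fst.comp (Primrec.snd.comp Primrec.snd))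
    · exact PrimrecPred.comp (p := fun w : List (List Bool) × (List Bool × (Posn × Cert)) =>
        ∀ τ ∈ w.1, τ ∈ w.2.2.1.2 ∨ ¬ HB k w.2.2.2.1 w.2.2.1.1 w.2.1 τ) h1e
        (f := fun z : List Bool × (Posn × (List Bool × Cert)) =>
          (strs z.2.2.2.1, (z.1, (z.2.1, z.2.2.2))))
        (Primrec.pair (primrec_strs.comp
          (Primrec.fst.comp (Primrec.snd.comp (Primrec.snd.comp Primrec.snd))))
          (Primrec.pair Primrec.fst (Primrec.pair (Primrec.fst.comp Primrec.snd)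
            (Primrec.snd.comp (Primrec.snd.comp Primrec.snd)))))
  have h2e : PrimrecRel fun (l : List (List Bool)) (y : Posn × (List Bool × Cert)) =>
      ∃ σ ∈ l, σ.take y.2.1.length = y.2.1 ∧ ∀ τ ∈ strs y.2.2.1, τ ∈ y.1.2 ∨
        ¬ HB k y.2.2.1 y.1.1 σ τ := h2.exists_mem_list
  have h3 : PrimrecRel fun (p : Posn) (z : List Bool × Cert) =>
      ∃ σ ∈ strs z.2.1, σ.take z.1.length = z.1 ∧ ∀ τ ∈ strs z.2.1, τ ∈ p.2 ∨
        ¬ HB k z.2.1 p.1 σ τ :=
    PrimrecPred.comp (p := fun w : List (List Bool) × (Posn × (List Bool × Cert)) =>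
      ∃ σ ∈ w.1, σ.take w.2.2.1.length = w.2.2.1 ∧ ∀ τ ∈ strs w.2.2.2.1, τ ∈ w.2.1.2 ∨
        ¬ HB k w.2.2.2.1 w.2.1.1 σ τ) h2e
      (f := fun z : Posn × (List Bool × Cert) => (strs z.2.2.1, z))
      (Primrec.pair (primrec_strs.comp (Primrec.fst.comp (Primrec.snd.comp Primrec.snd)))
        Primrec.id)
  have h3e : PrimrecRel fun (l : List Posn) (z : List Bool × Cert) =>
      ∀ p ∈ l, ∃ σ ∈ strs z.2.1, σ.take z.1.length = z.1 ∧ ∀ τ ∈ strs z.2.1, τ ∈ p.2 ∨
        ¬ HB k z.2.1 p.1 σ τ := h3.forall_mem_list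
  exact PrimrecPred.comp (p := fun w : List Posn × (List Bool × Cert) =>
      ∀ p ∈ w.1, ∃ σ ∈ strs w.2.2.1, σ.take w.2.1.length = w.2.1 ∧ ∀ τ ∈ strs w.2.2.1, τ ∈ p.2 ∨
        ¬ HB k w.2.2.1 p.1 σ τ) h3e
      (f := fun z : List Bool × Cert => (z.2.2, z))
      (Primrec.pair (Primrec.snd.comp Primrec.snd) Primrec.id)

theorem primrec_Valid (k : ℕ) :
    PrimrecPred fun z : (ℕ × List Bool) × Cert => Valid k z.1.1 z.1.2 z.2 := by
  unfold Valid
  refine PrimrecPred.and (primrec_V1.comp Primrec.snd) (PrimrecPred.and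
    ((primrec_V2 k).comp Primrec.snd) (PrimrecPred.and (primrec_V3.comp
      (Primrec.pair (Primrec.fst.comp Primrec.fst) Primrec.snd))
      ((primrec_V4 k).comp (Primrec.pair (Primrec.snd.comp Primrec.fst) Primrec.snd))))

end Pool.Agent.RKr
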